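import Mathlib

/-!
Core computations for the truncated q-congruence with fifth powers (problem MP_40e425_nt).
Everything takes place in a field `K` with a subring `O`, an element `q` of `O` and the
uniformising element `u = q ^ n - 1`, where `n = 4 * M + 1`.
-/

set_option linter.unusedSectionVars false

namespace Pool.Agent.MP_40e425_nt.Core80

open Finset

/-- The data: a subring `O` of a field `K` in which `1 - q ^ i` is invertible for `n ∤ i`,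
with `n = 4 * M + 1`. -/
structure Ctx (K : Type) [Field K] where
  O : Subring K
  q : K
  M : ℕ
  hq0 : q ≠ 0
  hq : q ∈ O
  hqi : q⁻¹ ∈ O
  hroot : ∀ i : ℕ, 0 < i → q ^ i ≠ 1
  hunit : ∀ i : ℕ, ¬ (4 * M + 1) ∣ i → (1 - q ^ i)⁻¹ ∈ O
  hQ : ∀ A : ℕ, 0 < A → (∑ i ∈ range A, (q ^ (4 * M + 1)) ^ i)⁻¹ ∈ O
  hrat : ∀ r : ℚ, (r : K) ∈ O

variable {K : Type} [Field K] [CharZero K] (c : Ctx K)

namespace Ctx

/-- the uniformiser -/
def u : K := c.q ^ (4 * c.M + 1) - 1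

/-- `e m = 1 - q ^ m` -/
def e (m : ℤ) : K := 1 - c.q ^ m

/-- `I k = u ^ k * O` -/
def I (k : ℕ) : Set K := {x | ∃ y ∈ c.O, x = c.u ^ k * y}

theorem u_mem : c.u ∈ c.O := c.O.sub_mem (c.O.pow_mem c.hq _) c.O.one_mem

theorem u_ne : c.u ≠ 0 := sub_ne_zero.2 (c.hroot _ (by omega))

theorem I_sub_O {k : ℕ} {x : K} (hx : x ∈ c.I k) : x ∈ c.O := by
  obtain ⟨y, hy, rfl⟩ := hx
  exact c.O.mul_mem (c.O.pow_mem c.u_mem _) hy

theorem mem_I_zero {x : K} : x ∈ c.I 0 ↔ x ∈ c.O := by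
  constructor
  · exact c.I_sub_O
  · intro h
    exact ⟨x, h, by simp⟩

theorem zero_mem_I (k : ℕ) : (0 : K) ∈ c.I k := ⟨0, c.O.zero_mem, by simp⟩

theorem add_mem_I {k : ℕ} {x y : K} (hx : x ∈ c.I k) (hy : y ∈ c.I k) : x + y ∈ c.I k := by
  obtain ⟨a, ha, rfl⟩ := hx
  obtain ⟨b, hb, rfl⟩ := hy
  exact ⟨a + b, c.O.add_mem ha hb, by ring⟩

theorem neg_mem_I {k : ℕ} {x : K} (hx : x ∈ c.I k) : -x ∈ c.I k := by
  obtain ⟨a, ha, rfl⟩ := hx
  exact ⟨-a, c.O.neg_mem ha, by ring⟩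

theorem sub_mem_I {k : ℕ} {x y : K} (hx : x ∈ c.I k) (hy : y ∈ c.I k) : x - y ∈ c.I k := by
  rw [sub_eq_add_neg]
  exact c.add_mem_I hx (c.neg_mem_I hy)

theorem mul_mem_I {j k : ℕ} {x y : K} (hx : x ∈ c.I j) (hy : y ∈ c.I k) :
    x * y ∈ c.I (j + k) := by
  obtain ⟨a, ha, rfl⟩ := hx
  obtain ⟨b, hb, rfl⟩ := hy
  exact ⟨a * b, c.O.mul_mem ha hb, by ring⟩

theorem mul_mem_I_left {k : ℕ} {x y : K} (hx : x ∈ c.O) (hy : y ∈ c.I k) : x * y ∈ c.I k := by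
  obtain ⟨b, hb, rfl⟩ := hy
  exact ⟨x * b, c.O.mul_mem hx hb, by ring⟩

theorem mul_mem_I_right {k : ℕ} {x y : K} (hx : x ∈ c.I k) (hy : y ∈ c.O) : x * y ∈ c.I k := by
  rw [mul_comm]
  exact c.mul_mem_I_left hy hx

theorem I_anti {j k : ℕ} (h : j ≤ k) {x : K} (hx : x ∈ c.I k) : x ∈ c.I j := by
  obtain ⟨a, ha, rfl⟩ := hx
  obtain ⟨l, rfl⟩ := Nat.exists_eq_add_of_le h
  exact ⟨c.u ^ l * a, c.O.mul_mem (c.O.pow_mem c.u_mem _) ha, by ring⟩

theorem u_mul_mem_I {k : ℕ} {x : K} : c.u * x ∈ c.I (k + 1) ↔ x ∈ c.I k := by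
  constructor
  · rintro ⟨a, ha, h⟩
    refine ⟨a, ha, ?_⟩
    apply mul_left_cancel₀ c.u_ne
    rw [h]; ring
  · rintro ⟨a, ha, rfl⟩
    exact ⟨a, ha, by ring⟩

theorem sum_mem_I {ι : Type*} (s : Finset ι) (f : ι → K) {k : ℕ} (h : ∀ i ∈ s, f i ∈ c.I k) :
    ∑ i ∈ s, f i ∈ c.I k := by
  classical
  induction s using Finset.induction_on with
  | empty => simpa using c.zero_mem_I k
  | insert a s ha ih =>
    rw [sum_insert ha]
    exact c.add_mem_I (h a (mem_insert_self a s)) (ih fun i hi => h i (mem_insert_of_mem hi))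

theorem two_inv_mem : (2 : K)⁻¹ ∈ c.O := by
  have := c.hrat (1 / 2)
  simpa using this

theorem nat_mem (m : ℕ) : (m : K) ∈ c.O := natCast_mem c.O m
theorem int_mem (m : ℤ) : (m : K) ∈ c.O := intCast_mem c.O m

theorem zpow_mem (m : ℤ) : c.q ^ m ∈ c.O := by
  rcases m with m | m
  · simpa using c.O.pow_mem c.hq m
  · rw [zpow_negSucc, ← inv_pow]
    exact c.O.pow_mem c.hqi _

theorem e_mem (m : ℤ) : c.e m ∈ c.O := c.O.sub_mem c.O.one_mem (c.zpow_mem m)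

theorem e_neg (m : ℤ) : c.e (-m) = -(c.q ^ (-m)) * c.e m := by
  have h : c.q ^ m ≠ 0 := zpow_ne_zero _ c.hq0
  unfold e
  rw [zpow_neg]
  field_simp
  ring

theorem e_ne {m : ℤ} (hm : m ≠ 0) : c.e m ≠ 0 := by
  have key : ∀ k : ℕ, 0 < k → c.e (k : ℤ) ≠ 0 := by
    intro k hk h
    unfold e at h
    rw [zpow_natCast] at h
    exact c.hroot k hk (sub_eq_zero.1 h).symm
  rcases lt_or_gt_of_ne hm with h | h
  · obtain ⟨k, hk⟩ := Int.eq_ofNat_of_zero_le (show 0 ≤ -m by omega)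
    have hm' : m = -(k : ℤ) := by omega
    rw [hm', e_neg]
    exact mul_ne_zero (neg_ne_zero.2 (zpow_ne_zero _ c.hq0)) (key k (by omega))
  · obtain ⟨k, hk⟩ := Int.eq_ofNat_of_zero_le h.le
    rw [hk]
    exact key k (by omega)

theorem e_inv_mem {m : ℤ} (hm : ¬ (4 * (c.M : ℤ) + 1) ∣ m) : (c.e m)⁻¹ ∈ c.O := by
  have key : ∀ k : ℕ, ¬ (4 * (c.M : ℤ) + 1) ∣ k → (c.e (k : ℤ))⁻¹ ∈ c.O := by
    intro k hk
    unfold e
    rw [zpow_natCast]
    apply c.hunit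
    intro h
    apply hk
    exact_mod_cast h
  rcases le_total m 0 with h | h
  · obtain ⟨k, hk⟩ := Int.eq_ofNat_of_zero_le (show 0 ≤ -m by omega)
    have hm' : m = -(k : ℤ) := by omega
    rw [hm', e_neg, mul_inv, inv_neg, ← zpow_neg]
    apply c.O.mul_mem (c.O.neg_mem (c.zpow_mem _))
    apply key
    intro hd
    apply hm
    rw [hm']
    exact (dvd_neg).2 hd
  · obtain ⟨k, hk⟩ := Int.eq_ofNat_of_zero_le h
    rw [hk] at hm ⊢
    exact key k hm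

theorem zpow_n : c.q ^ (4 * (c.M : ℤ) + 1) = 1 + c.u := by
  unfold u
  have : (4 * (c.M : ℤ) + 1) = ((4 * c.M + 1 : ℕ) : ℤ) := by push_cast; ring
  rw [this, zpow_natCast]
  ring

theorem e_add_n (m : ℤ) : c.e (m + (4 * (c.M : ℤ) + 1)) - c.e m ∈ c.I 1 := by
  unfold e
  rw [zpow_add₀ c.hq0, zpow_n]
  exact ⟨-(c.q ^ m), c.O.neg_mem (c.zpow_mem m), by ring⟩

theorem e_mul_n (k : ℕ) :
    c.e ((4 * (c.M : ℤ) + 1) * k) = -c.u * ∑ i ∈ range k, (c.q ^ (4 * c.M + 1)) ^ i := by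
  unfold e
  rw [zpow_mul, zpow_natCast, zpow_n]
  have h := geom_sum_mul (c.q ^ (4 * c.M + 1)) k
  unfold u at *
  rw [show (1 : K) + (c.q ^ (4 * c.M + 1) - 1) = c.q ^ (4 * c.M + 1) by ring]
  linear_combination h

theorem geom_mem (k : ℕ) : ∑ i ∈ range k, (c.q ^ (4 * c.M + 1)) ^ i ∈ c.O :=
  c.O.sum_mem fun _ _ => c.O.pow_mem (c.O.pow_mem c.hq _) _

/-! ### Functions which are quadratic in `u * s` modulo `u ^ 3` -/

/-- quadratic in `u * s` modulo `u ^ 3` -/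
def PP (f : ℤ → K) : Prop :=
  ∃ A ∈ c.O, ∃ B ∈ c.O, ∃ C ∈ c.O, ∀ s : ℤ,
    f s - (A + B * (c.u * s) + C * (c.u * s) ^ 2) ∈ c.I 3

variable {c}

theorem PP.mem {f : ℤ → K} (hf : c.PP f) (s : ℤ) : f s ∈ c.O := by
  obtain ⟨A, hA, B, hB, C, hC, h⟩ := hf
  have h1 := c.I_sub_O (h s)
  have hus : c.u * (s : K) ∈ c.O := c.O.mul_mem c.u_mem (c.int_mem s)
  have h2 : A + B * (c.u * s) + C * (c.u * s) ^ 2 ∈ c.O :=
    c.O.add_mem (c.O.add_mem hA (c.O.mul_mem hB hus)) (c.O.mul_mem hC (c.O.pow_mem hus 2))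
  have := c.O.add_mem h1 h2
  simpa using this

theorem PP.const {a : K} (ha : a ∈ c.O) : c.PP (fun _ => a) :=
  ⟨a, ha, 0, c.O.zero_mem, 0, c.O.zero_mem, fun s => by simpa using c.zero_mem_I 3⟩

theorem PP.add {f g : ℤ → K} (hf : c.PP f) (hg : c.PP g) : c.PP (fun s => f s + g s) := by
  obtain ⟨A, hA, B, hB, C, hC, h⟩ := hf
  obtain ⟨A', hA', B', hB', C', hC', h'⟩ := hg
  refine ⟨A + A', c.O.add_mem hA hA', B + B', c.O.add_mem hB hB', C + C', c.O.add_mem hC hC',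
    fun s => ?_⟩
  have := c.add_mem_I (h s) (h' s)
  convert this using 1
  ring

theorem PP.mul {f g : ℤ → K} (hf : c.PP f) (hg : c.PP g) : c.PP (fun s => f s * g s) := by
  have hgm := hg.mem
  obtain ⟨A, hA, B, hB, C, hC, h⟩ := hf
  obtain ⟨A', hA', B', hB', C', hC', h'⟩ := hg
  refine ⟨A * A', c.O.mul_mem hA hA', A * B' + B * A',
    c.O.add_mem (c.O.mul_mem hA hB') (c.O.mul_mem hB hA'), A * C' + B * B' + C * A',
    c.O.add_mem (c.O.add_mem (c.O.mul_mem hA hC') (c.O.mul_mem hB hB')) (c.O.mul_mem hC hA'),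
    fun s => ?_⟩
  have hs := c.int_mem s
  have hus : c.u * (s : K) ∈ c.O := c.O.mul_mem c.u_mem hs
  have h1 := c.mul_mem_I_right (h s) (hgm s)
  have h2 : (A + B * (c.u * s) + C * (c.u * s) ^ 2) *
      (g s - (A' + B' * (c.u * s) + C' * (c.u * s) ^ 2)) ∈ c.I 3 :=
    c.mul_mem_I_left (c.O.add_mem (c.O.add_mem hA (c.O.mul_mem hB hus))
      (c.O.mul_mem hC (c.O.pow_mem hus 2))) (h' s)
  have h3 : c.u ^ 3 * ((s : K) ^ 3 * (B * C' + C * B' + C * C' * (c.u * s))) ∈ c.I 3 :=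
    ⟨_, c.O.mul_mem (c.O.pow_mem hs 3) (c.O.add_mem (c.O.add_mem (c.O.mul_mem hB hC')
      (c.O.mul_mem hC hB')) (c.O.mul_mem (c.O.mul_mem hC hC') hus)), rfl⟩
  have := c.add_mem_I (c.add_mem_I h1 h2) h3
  convert this using 1
  ring

theorem PP.neg {f : ℤ → K} (hf : c.PP f) : c.PP (fun s => -f s) := by
  have := (PP.const (c := c) (c.O.neg_mem c.O.one_mem)).mul hf
  simpa using this

theorem PP.sub {f g : ℤ → K} (hf : c.PP f) (hg : c.PP g) : c.PP (fun s => f s - g s) := by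
  have := hf.add hg.neg
  simpa [sub_eq_add_neg] using this

theorem PP.pow {f : ℤ → K} (hf : c.PP f) (k : ℕ) : c.PP (fun s => f s ^ k) := by
  induction k with
  | zero => simpa using PP.const (c := c) c.O.one_mem
  | succ k ih =>
    have := ih.mul hf
    simpa [pow_succ] using this

theorem PP.sum {ι : Type*} (S : Finset ι) (f : ι → ℤ → K) (h : ∀ i ∈ S, c.PP (f i)) :
    c.PP (fun s => ∑ i ∈ S, f i s) := by
  classical
  induction S using Finset.induction_on with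
  | empty => simpa using PP.const (c := c) c.O.zero_mem
  | insert a S ha ih =>
    have := (h a (mem_insert_self a S)).add (ih fun i hi => h i (mem_insert_of_mem hi))
    simpa [sum_insert ha] using this

theorem PP.prod {ι : Type*} (S : Finset ι) (f : ι → ℤ → K) (h : ∀ i ∈ S, c.PP (f i)) :
    c.PP (fun s => ∏ i ∈ S, f i s) := by
  classical
  induction S using Finset.induction_on with
  | empty => simpa using PP.const (c := c) c.O.one_mem
  | insert a S ha ih =>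
    have := (h a (mem_insert_self a S)).mul (ih fun i hi => h i (mem_insert_of_mem hi))
    simpa [prod_insert ha] using this

theorem PP.inv {f : ℤ → K} (hf : c.PP f) (hne : ∀ s, f s ≠ 0) (hinv : ∀ s, (f s)⁻¹ ∈ c.O) :
    c.PP (fun s => (f s)⁻¹) := by
  have hfm := hf.mem
  obtain ⟨A, hA, B, hB, C, hC, h⟩ := hf
  have h0 : f 0 - A ∈ c.I 3 := by simpa using h 0
  set a := (f 0)⁻¹ with ha
  have hfa : f 0 * a = 1 := mul_inv_cancel₀ (hne 0)
  have haO : a ∈ c.O := hinv 0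
  refine ⟨a, haO, -(a ^ 2 * B), c.O.neg_mem (c.O.mul_mem (c.O.pow_mem haO 2) hB),
    a ^ 3 * B ^ 2 - a ^ 2 * C, c.O.sub_mem (c.O.mul_mem (c.O.pow_mem haO 3) (c.O.pow_mem hB 2))
      (c.O.mul_mem (c.O.pow_mem haO 2) hC), fun s => ?_⟩
  have hs := c.int_mem s
  have hus : c.u * (s : K) ∈ c.O := c.O.mul_mem c.u_mem hs
  set t := c.u * (s : K) with ht
  set g := a + -(a ^ 2 * B) * t + (a ^ 3 * B ^ 2 - a ^ 2 * C) * t ^ 2 with hg
  have hgO : g ∈ c.O := c.O.add_mem (c.O.add_mem haO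
    (c.O.mul_mem (c.O.neg_mem (c.O.mul_mem (c.O.pow_mem haO 2) hB)) hus))
    (c.O.mul_mem (c.O.sub_mem (c.O.mul_mem (c.O.pow_mem haO 3) (c.O.pow_mem hB 2))
      (c.O.mul_mem (c.O.pow_mem haO 2) hC)) (c.O.pow_mem hus 2))
  have h1 : (f s - (A + B * t + C * t ^ 2)) * g ∈ c.I 3 := c.mul_mem_I_right (h s) hgO
  have h2 : (f 0 - A) * g ∈ c.I 3 := c.mul_mem_I_right h0 hgO
  have h3 : c.u ^ 3 * ((s : K) ^ 3 * (B * (a ^ 3 * B ^ 2 - a ^ 2 * C) - C * (a ^ 2 * B) +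
      C * (a ^ 3 * B ^ 2 - a ^ 2 * C) * t)) ∈ c.I 3 := by
    refine ⟨_, c.O.mul_mem (c.O.pow_mem hs 3) ?_, rfl⟩
    have h4 : a ^ 3 * B ^ 2 - a ^ 2 * C ∈ c.O :=
      c.O.sub_mem (c.O.mul_mem (c.O.pow_mem haO 3) (c.O.pow_mem hB 2))
        (c.O.mul_mem (c.O.pow_mem haO 2) hC)
    exact c.O.add_mem (c.O.sub_mem (c.O.mul_mem hB h4)
      (c.O.mul_mem hC (c.O.mul_mem (c.O.pow_mem haO 2) hB)))
      (c.O.mul_mem (c.O.mul_mem hC h4) hus)
  have h5 : f s * g - 1 ∈ c.I 3 := by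
    have := c.add_mem_I (c.sub_mem_I h1 h2) h3
    convert this using 1
    rw [hg]
    linear_combination (1 - a * B * t + (a ^ 2 * B ^ 2 - a * C) * t ^ 2) * hfa
  have h6 := c.mul_mem_I_left (hinv s) h5
  have h7 := c.neg_mem_I h6
  convert h7 using 1
  have := hne s
  field_simp
  ring

theorem zpow_n_eq (s : ℤ) : c.q ^ ((4 * (c.M : ℤ) + 1) * s) = (1 + c.u) ^ s := by
  rw [zpow_mul, zpow_n]

theorem one_add_u_ne : (1 + c.u) ≠ 0 := by
  rw [← zpow_n]; exact zpow_ne_zero _ c.hq0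

theorem PP_zpow : c.PP (fun s => c.q ^ ((4 * (c.M : ℤ) + 1) * s)) := by
  refine ⟨1, c.O.one_mem, 1 - 2⁻¹ * c.u,
    c.O.sub_mem c.O.one_mem (c.O.mul_mem c.two_inv_mem c.u_mem), 2⁻¹, c.two_inv_mem, ?_⟩
  have hstep : ∀ s : ℤ, (1 + (1 - 2⁻¹ * c.u) * (c.u * ((s + 1 : ℤ) : K)) +
      2⁻¹ * (c.u * ((s + 1 : ℤ) : K)) ^ 2) - (1 + (1 - 2⁻¹ * c.u) * (c.u * (s : K)) +
      2⁻¹ * (c.u * (s : K)) ^ 2) * (1 + c.u) ∈ c.I 3 := by
    intro s
    refine ⟨-((s : K) * (s - 1) * 2⁻¹), ?_, ?_⟩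
    · exact c.O.neg_mem (c.O.mul_mem (c.O.mul_mem (c.int_mem s)
        (c.O.sub_mem (c.int_mem s) c.O.one_mem)) c.two_inv_mem)
    · push_cast
      ring
  have hinv : (1 + c.u)⁻¹ ∈ c.O := by
    rw [← zpow_n, ← zpow_neg]
    exact c.zpow_mem _
  have hO : (1 + c.u) ∈ c.O := c.O.add_mem c.O.one_mem c.u_mem
  intro s
  beta_reduce
  rw [zpow_n_eq]
  induction s using Int.induction_on with
  | zero => simpa using c.zero_mem_I 3
  | succ k ih =>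
    have h1 := c.mul_mem_I_right ih hO
    have h2 := c.sub_mem_I h1 (hstep k)
    convert h2 using 1
    rw [zpow_add_one₀ one_add_u_ne]
    ring
  | pred k ih =>
    have h2 := hstep (-(k : ℤ) - 1)
    rw [sub_add_cancel] at h2
    have h3 := c.mul_mem_I_right (c.add_mem_I ih h2) hinv
    convert h3 using 1
    rw [zpow_sub_one₀ one_add_u_ne]
    have := one_add_u_ne (c := c)
    field_simp
    ring

theorem PP_e (m : ℤ) : c.PP (fun s => c.e ((4 * (c.M : ℤ) + 1) * s + m)) := by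
  have h := (PP.const (c := c) c.O.one_mem).sub
    ((PP_zpow (c := c)).mul (PP.const (c.zpow_mem m)))
  convert h using 2 with s
  unfold e
  rw [zpow_add₀ c.hq0]

theorem PP_e2 (m : ℤ) : c.PP (fun s => c.e (2 * (4 * (c.M : ℤ) + 1) * s + m)) := by
  have h := (PP.const (c := c) c.O.one_mem).sub
    (((PP_zpow (c := c)).mul (PP_zpow (c := c))).mul (PP.const (c.zpow_mem m)))
  convert h using 2 with s
  unfold e
  rw [← zpow_add₀ c.hq0, ← zpow_add₀ c.hq0]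
  congr 2
  ring

/-! ### The well-poised sum -/

variable (c)

/-- one factor -/
def f (i s : ℤ) : K :=
  c.e ((4 * (c.M : ℤ) + 1) * s + (2 * i - 1)) ^ 4 *
      c.e (2 * (4 * (c.M : ℤ) + 1) * s + (4 * i - 2)) /
    (c.e ((4 * (c.M : ℤ) + 1) * s + 2 * i) ^ 4 * c.e (2 * (4 * (c.M : ℤ) + 1) * s + 4 * i))

/-- the product of the first `j` factors -/
def P (j : ℕ) (s : ℤ) : K := ∏ i ∈ range j, c.f ((i : ℤ) + 1) s

/-- the `j`-th term -/
def T (j : ℕ) (s : ℤ) : K :=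
  (-1) ^ j * c.q ^ (j : ℤ) * c.e (2 * (4 * (c.M : ℤ) + 1) * s + (4 * j + 1)) / c.e 1 * c.P j s

/-- the sum -/
def F (s : ℤ) : K := ∑ j ∈ range (2 * c.M + 1), c.T j s

/-- the multiplier -/
def Cc (s : ℤ) : K :=
  c.q ^ (10 * (c.M : ℤ) + 1 + 2 * (4 * (c.M : ℤ) + 1) * s) * c.P (2 * c.M) s

variable {c}

theorem not_dvd_odd {i : ℤ} (h1 : 1 ≤ i) (h2 : i ≤ 2 * c.M) (s : ℤ) :
    ¬ (4 * (c.M : ℤ) + 1) ∣ (4 * (c.M : ℤ) + 1) * s + (2 * i - 1) := by
  intro h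
  rw [dvd_add_right (Dvd.intro _ rfl)] at h
  have := Int.le_of_dvd (by omega) h
  omega

theorem not_dvd_even {i : ℤ} (h1 : 1 ≤ i) (h2 : i ≤ 2 * c.M) (s : ℤ) :
    ¬ (4 * (c.M : ℤ) + 1) ∣ (4 * (c.M : ℤ) + 1) * s + 2 * i := by
  intro h
  rw [dvd_add_right (Dvd.intro _ rfl)] at h
  have := Int.le_of_dvd (by omega) h
  omega

theorem not_dvd_two_mul {m : ℤ} (h : ¬ (4 * (c.M : ℤ) + 1) ∣ m) :
    ¬ (4 * (c.M : ℤ) + 1) ∣ 2 * m := by
  intro h'
  apply h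
  have hcop : IsCoprime (4 * (c.M : ℤ) + 1) 2 := ⟨1, -(2 * c.M), by ring⟩
  exact hcop.dvd_of_dvd_mul_left h'

theorem not_dvd_odd2 {i : ℤ} (h1 : 1 ≤ i) (h2 : i ≤ 2 * c.M) (s : ℤ) :
    ¬ (4 * (c.M : ℤ) + 1) ∣ 2 * (4 * (c.M : ℤ) + 1) * s + (4 * i - 2) := by
  have := not_dvd_two_mul (not_dvd_odd h1 h2 s)
  convert this using 1
  ring

theorem not_dvd_even2 {i : ℤ} (h1 : 1 ≤ i) (h2 : i ≤ 2 * c.M) (s : ℤ) :
    ¬ (4 * (c.M : ℤ) + 1) ∣ 2 * (4 * (c.M : ℤ) + 1) * s + 4 * i := by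
  have := not_dvd_two_mul (not_dvd_even h1 h2 s)
  convert this using 1
  ring

theorem e_ne' {m : ℤ} (h : ¬ (4 * (c.M : ℤ) + 1) ∣ m) : c.e m ≠ 0 := by
  apply c.e_ne
  rintro rfl
  exact h (dvd_zero _)

theorem f_ne {i : ℤ} (h1 : 1 ≤ i) (h2 : i ≤ 2 * c.M) (s : ℤ) : c.f i s ≠ 0 := by
  unfold f
  have e1 := e_ne' (not_dvd_odd h1 h2 s)
  have e2 := e_ne' (not_dvd_even h1 h2 s)
  have e3 := e_ne' (not_dvd_odd2 h1 h2 s)
  have e4 := e_ne' (not_dvd_even2 h1 h2 s)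
  positivity

theorem f_PP {i : ℤ} (h1 : 1 ≤ i) (h2 : i ≤ 2 * c.M) : c.PP (c.f i) := by
  have a1 := (PP_e (c := c) (2 * i - 1)).pow 4
  have a2 := PP_e2 (c := c) (4 * i - 2)
  have a3 := ((PP_e (c := c) (2 * i)).inv (fun s => e_ne' (not_dvd_even h1 h2 s))
    (fun s => c.e_inv_mem (not_dvd_even h1 h2 s))).pow 4
  have a4 := (PP_e2 (c := c) (4 * i)).inv (fun s => e_ne' (not_dvd_even2 h1 h2 s))
    (fun s => c.e_inv_mem (not_dvd_even2 h1 h2 s))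
  have := (a1.mul a2).mul (a3.mul a4)
  convert this using 2 with s
  unfold f
  rw [div_eq_mul_inv, mul_inv, inv_pow]

theorem f_inv_mem {i : ℤ} (h1 : 1 ≤ i) (h2 : i ≤ 2 * c.M) (s : ℤ) : (c.f i s)⁻¹ ∈ c.O := by
  unfold f
  rw [inv_div, div_eq_mul_inv, mul_inv, ← inv_pow]
  exact c.O.mul_mem (c.O.mul_mem (c.O.pow_mem (c.e_mem _) _) (c.e_mem _))
    (c.O.mul_mem (c.O.pow_mem (c.e_inv_mem (not_dvd_odd h1 h2 s)) _)
      (c.e_inv_mem (not_dvd_odd2 h1 h2 s)))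

theorem P_PP {j : ℕ} (hj : j ≤ 2 * c.M) : c.PP (c.P j) := by
  unfold P
  apply PP.prod
  intro i hi
  have := mem_range.1 hi
  exact f_PP (by omega) (by omega)

theorem P_inv_mem {j : ℕ} (hj : j ≤ 2 * c.M) (s : ℤ) : (c.P j s)⁻¹ ∈ c.O := by
  unfold P
  rw [← prod_inv_distrib]
  apply c.O.prod_mem
  intro i hi
  have := mem_range.1 hi
  exact f_inv_mem (by omega) (by omega) s

theorem P_ne {j : ℕ} (hj : j ≤ 2 * c.M) (s : ℤ) : c.P j s ≠ 0 := by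
  unfold P
  rw [prod_ne_zero_iff]
  intro i hi
  have := mem_range.1 hi
  exact f_ne (by omega) (by omega) s

theorem f_reflect {i : ℤ} (h1 : 1 ≤ i) (h2 : i ≤ 2 * c.M) (s : ℤ) :
    c.f i (-1 - s) * c.f (2 * c.M + 1 - i) s = c.q ^ (-6 : ℤ) := by
  have h1' : 1 ≤ 2 * c.M + 1 - i := by omega
  have h2' : 2 * c.M + 1 - i ≤ 2 * c.M := by omega
  have e1 := e_ne' (not_dvd_odd h1' h2' s)
  have e2 := e_ne' (not_dvd_even h1' h2' s)
  have e3 := e_ne' (not_dvd_odd2 h1' h2' s)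
  have e4 := e_ne' (not_dvd_even2 h1' h2' s)
  unfold f
  rw [show (4 * (c.M : ℤ) + 1) * (-1 - s) + (2 * i - 1) =
      -((4 * (c.M : ℤ) + 1) * s + 2 * (2 * c.M + 1 - i)) by ring,
    show 2 * (4 * (c.M : ℤ) + 1) * (-1 - s) + (4 * i - 2) =
      -(2 * (4 * (c.M : ℤ) + 1) * s + 4 * (2 * c.M + 1 - i)) by ring,
    show (4 * (c.M : ℤ) + 1) * (-1 - s) + 2 * i =
      -((4 * (c.M : ℤ) + 1) * s + (2 * (2 * c.M + 1 - i) - 1)) by ring,
    show 2 * (4 * (c.M : ℤ) + 1) * (-1 - s) + 4 * i =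
      -(2 * (4 * (c.M : ℤ) + 1) * s + (4 * (2 * c.M + 1 - i) - 2)) by ring]
  simp only [e_neg]
  generalize hx : (4 * (c.M : ℤ) + 1) * s = x at *
  rw [show 2 * (4 * (c.M : ℤ) + 1) * s = 2 * x by rw [← hx]; ring] at *
  generalize hy : 2 * (c.M : ℤ) + 1 - i = y at *
  have hq := c.hq0
  have k1 : c.q ^ (-(x + 2 * y)) ≠ 0 := zpow_ne_zero _ hq
  have k2 : c.q ^ (-(2 * x + 4 * y)) ≠ 0 := zpow_ne_zero _ hq
  have k3 : c.q ^ (-(x + (2 * y - 1))) = c.q ^ (-(x + 2 * y)) * c.q := by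
    rw [← zpow_add_one₀ hq]; congr 1; ring
  have k4 : c.q ^ (-(2 * x + (4 * y - 2))) = c.q ^ (-(2 * x + 4 * y)) * c.q ^ 2 := by
    rw [← zpow_natCast, ← zpow_add₀ hq]; congr 1; push_cast; ring
  rw [k3, k4]
  generalize c.q ^ (-(x + 2 * y)) = a at *
  generalize c.q ^ (-(2 * x + 4 * y)) = b at *
  rw [show (-6 : ℤ) = -((6 : ℕ) : ℤ) by norm_num, zpow_neg, zpow_natCast]
  field_simp

theorem P_reflect {j : ℕ} (hj : j ≤ 2 * c.M) (s : ℤ) :
    c.P j (-1 - s) * c.P (2 * c.M) s = c.q ^ (-6 * (j : ℤ)) * c.P (2 * c.M - j) s := by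
  induction j with
  | zero => simp [P]
  | succ j ih =>
    have hj' : j ≤ 2 * c.M := by omega
    have h1 := ih hj'
    have h2 : c.P (2 * c.M - j) s = c.P (2 * c.M - (j + 1)) s * c.f (2 * c.M + 1 - (j + 1)) s := by
      have : 2 * c.M - j = (2 * c.M - (j + 1)) + 1 := by omega
      rw [this]
      unfold P
      rw [prod_range_succ]
      congr 2
      push_cast [Nat.cast_sub hj]
      ring
    have h3 := f_reflect (c := c) (i := (j : ℤ) + 1) (by omega) (by omega) s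
    have h4 : c.P (j + 1) (-1 - s) = c.P j (-1 - s) * c.f ((j : ℤ) + 1) (-1 - s) := by
      unfold P
      rw [prod_range_succ]
    have hx : c.q ^ (-6 * ((j + 1 : ℕ) : ℤ)) = c.q ^ (-6 * (j : ℤ)) * c.q ^ (-6 : ℤ) := by
      rw [← zpow_add₀ c.hq0]; congr 1; push_cast; ring
    rw [h4, hx, ← h3]
    have h5 : c.P j (-1 - s) * c.f (↑j + 1) (-1 - s) * c.P (2 * c.M) s =
      (c.P j (-1 - s) * c.P (2 * c.M) s) * c.f (↑j + 1) (-1 - s) := by ring
    rw [h5, h1, h2]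
    ring

theorem neg_one_pow_sub {j : ℕ} (hj : j ≤ 2 * c.M) : (-1 : K) ^ (2 * c.M - j) = (-1) ^ j := by
  have h : (-1 : K) ^ (2 * c.M - j) * (-1) ^ j = 1 := by
    rw [← pow_add, Nat.sub_add_cancel hj, pow_mul]
    norm_num
  have h2 : (-1 : K) ^ j * (-1) ^ j = 1 := by
    rw [← mul_pow]; norm_num
  have h3 : (-1 : K) ^ j ≠ 0 := pow_ne_zero _ (by norm_num)
  exact mul_right_cancel₀ h3 (h.trans h2.symm)

theorem T_reflect {j : ℕ} (hj : j ≤ 2 * c.M) (s : ℤ) :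
    c.T j (-1 - s) * c.Cc s = -c.T (2 * c.M - j) s := by
  have h := P_reflect (c := c) hj s
  unfold T Cc
  rw [neg_one_pow_sub hj]
  have hcast : ((2 * c.M - j : ℕ) : ℤ) = 2 * c.M - j := by push_cast [Nat.cast_sub hj]; ring
  rw [hcast]
  rw [show 2 * (4 * (c.M : ℤ) + 1) * (-1 - s) + (4 * j + 1) =
    -(2 * (4 * (c.M : ℤ) + 1) * s + (4 * (2 * c.M - j) + 1)) by ring, e_neg]
  generalize hE : c.e (2 * (4 * (c.M : ℤ) + 1) * s + (4 * (2 * c.M - j) + 1)) = E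
  have hpow : c.q ^ (j : ℤ) * c.q ^ (-(2 * (4 * (c.M : ℤ) + 1) * s + (4 * (2 * c.M - j) + 1))) *
      c.q ^ (10 * (c.M : ℤ) + 1 + 2 * (4 * (c.M : ℤ) + 1) * s) * c.q ^ (-6 * (j : ℤ)) =
      c.q ^ (2 * (c.M : ℤ) - j) := by
    rw [← zpow_add₀ c.hq0, ← zpow_add₀ c.hq0, ← zpow_add₀ c.hq0]
    congr 1
    ring
  calc (-1) ^ j * c.q ^ (j : ℤ) * (-c.q ^ (-(2 * (4 * (c.M : ℤ) + 1) * s +
        (4 * (2 * c.M - j) + 1))) * E) / c.e 1 * c.P j (-1 - s) *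
        (c.q ^ (10 * (c.M : ℤ) + 1 + 2 * (4 * (c.M : ℤ) + 1) * s) * c.P (2 * c.M) s)
      = -((-1) ^ j * (c.q ^ (j : ℤ) * c.q ^ (-(2 * (4 * (c.M : ℤ) + 1) * s +
        (4 * (2 * c.M - j) + 1))) *
        c.q ^ (10 * (c.M : ℤ) + 1 + 2 * (4 * (c.M : ℤ) + 1) * s)) * E / c.e 1 *
        (c.P j (-1 - s) * c.P (2 * c.M) s)) := by ring
    _ = _ := by
      rw [h, ← hpow]
      ring

theorem F_reflect (s : ℤ) : c.F (-1 - s) * c.Cc s = -c.F s := by
  unfold F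
  rw [sum_mul, ← sum_range_reflect (fun j => c.T j s), ← sum_neg_distrib]
  apply sum_congr rfl
  intro j hj
  have hj' : j ≤ 2 * c.M := by have := mem_range.1 hj; omega
  rw [T_reflect hj' s]
  congr 2

theorem Cc_mul (s : ℤ) : c.Cc (-1 - s) * c.Cc s = 1 := by
  have h := P_reflect (c := c) (le_refl (2 * c.M)) s
  rw [Nat.sub_self] at h
  unfold Cc
  have h0 : c.P 0 s = 1 := by simp [P]
  rw [h0, mul_one] at h
  calc c.q ^ (10 * (c.M : ℤ) + 1 + 2 * (4 * (c.M : ℤ) + 1) * (-1 - s)) * c.P (2 * c.M) (-1 - s) *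
      (c.q ^ (10 * (c.M : ℤ) + 1 + 2 * (4 * (c.M : ℤ) + 1) * s) * c.P (2 * c.M) s)
      = c.q ^ (10 * (c.M : ℤ) + 1 + 2 * (4 * (c.M : ℤ) + 1) * (-1 - s)) *
      c.q ^ (10 * (c.M : ℤ) + 1 + 2 * (4 * (c.M : ℤ) + 1) * s) *
      (c.P (2 * c.M) (-1 - s) * c.P (2 * c.M) s) := by ring
    _ = 1 := by
      rw [h, ← zpow_add₀ c.hq0, ← zpow_add₀ c.hq0]
      have : 10 * (c.M : ℤ) + 1 + 2 * (4 * (c.M : ℤ) + 1) * (-1 - s) +
        (10 * (c.M : ℤ) + 1 + 2 * (4 * (c.M : ℤ) + 1) * s) + -6 * ((2 * c.M : ℕ) : ℤ) = 0 := by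
        push_cast; ring
      rw [this, zpow_zero]

theorem Cc_PP : c.PP c.Cc := by
  have h := ((PP_zpow (c := c)).mul (PP_zpow (c := c))).mul
    ((PP.const (c.zpow_mem (10 * (c.M : ℤ) + 1))).mul (P_PP (c := c) le_rfl))
  convert h using 2 with s
  unfold Cc
  have : c.q ^ (10 * (c.M : ℤ) + 1 + 2 * (4 * (c.M : ℤ) + 1) * s) =
      c.q ^ ((4 * (c.M : ℤ) + 1) * s) * c.q ^ ((4 * (c.M : ℤ) + 1) * s) *
      c.q ^ (10 * (c.M : ℤ) + 1) := by
    rw [← zpow_add₀ c.hq0, ← zpow_add₀ c.hq0]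
    congr 1
    ring
  rw [this]
  ring

theorem T_PP (hM : 0 < c.M) {j : ℕ} (hj : j ≤ 2 * c.M) : c.PP (c.T j) := by
  have h1 : ¬ (4 * (c.M : ℤ) + 1) ∣ 1 := by
    intro h
    have := Int.le_of_dvd (by norm_num) h
    omega
  have h := ((PP.const (c := c) (a := (-1) ^ j * c.q ^ (j : ℤ) * (c.e 1)⁻¹)
    (c.O.mul_mem (c.O.mul_mem (c.O.pow_mem (c.O.neg_mem c.O.one_mem) _) (c.zpow_mem _))
    (c.e_inv_mem h1))).mul (PP_e2 (c := c) (4 * j + 1))).mul (P_PP (c := c) hj)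
  convert h using 2 with s
  unfold T
  ring

theorem F_PP (hM : 0 < c.M) : c.PP c.F := by
  unfold F
  apply PP.sum
  intro j hj
  exact T_PP hM (by have := mem_range.1 hj; omega)

/-! ### The multiplier modulo `u` -/

theorem I_prod_congr {ι : Type*} (S : Finset ι) (f g : ι → K) {k : ℕ} (hf : ∀ i ∈ S, f i ∈ c.O)
    (hg : ∀ i ∈ S, g i ∈ c.O) (h : ∀ i ∈ S, f i - g i ∈ c.I k) :
    ∏ i ∈ S, f i - ∏ i ∈ S, g i ∈ c.I k := by
  classical
  induction S using Finset.induction_on with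
  | empty => simpa using c.zero_mem_I k
  | insert a S ha ih =>
    rw [prod_insert ha, prod_insert ha]
    have h1 := ih (fun i hi => hf i (mem_insert_of_mem hi)) (fun i hi => hg i (mem_insert_of_mem hi))
      (fun i hi => h i (mem_insert_of_mem hi))
    have h2 := c.mul_mem_I_left (hf a (mem_insert_self a S)) h1
    have h3 := c.mul_mem_I_right (h a (mem_insert_self a S))
      (c.O.prod_mem fun i hi => hg i (mem_insert_of_mem hi))
    have := c.add_mem_I h2 h3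
    convert this using 1
    ring

theorem I_mul_congr {k : ℕ} {a b x y : K} (ha : a ∈ c.O) (hy : y ∈ c.O) (h1 : a - b ∈ c.I k)
    (h2 : x - y ∈ c.I k) : a * x - b * y ∈ c.I k := by
  have := c.add_mem_I (c.mul_mem_I_left ha h2) (c.mul_mem_I_right h1 hy)
  convert this using 1
  ring

theorem I_pow_congr {k : ℕ} {a b : K} (ha : a ∈ c.O) (hb : b ∈ c.O) (h1 : a - b ∈ c.I k)
    (m : ℕ) : a ^ m - b ^ m ∈ c.I k := by
  induction m with
  | zero => simpa using c.zero_mem_I k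
  | succ m ih =>
    rw [pow_succ, pow_succ]
    exact I_mul_congr (c.O.pow_mem ha m) hb ih h1

theorem e_congr (m k : ℤ) : c.e (m + (4 * (c.M : ℤ) + 1) * k) - c.e m ∈ c.I 1 := by
  have hk : c.q ^ ((4 * (c.M : ℤ) + 1) * k) - 1 ∈ c.I 1 := by
    obtain ⟨A, hA, B, hB, C, hC, h⟩ := PP_zpow (c := c)
    have h0 := c.I_anti (show 1 ≤ 3 by norm_num) (h 0)
    have hk := c.I_anti (show 1 ≤ 3 by norm_num) (h k)
    have h3 : B * (c.u * k) + C * (c.u * k) ^ 2 ∈ c.I 1 :=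
      ⟨B * k + C * (c.u * k ^ 2), c.O.add_mem (c.O.mul_mem hB (c.int_mem k))
        (c.O.mul_mem hC (c.O.mul_mem c.u_mem (c.O.pow_mem (c.int_mem k) 2))), by ring⟩
    have := c.add_mem_I (c.sub_mem_I hk h0) h3
    convert this using 1
    simp
    ring
  have := c.mul_mem_I_left (c.O.neg_mem (c.zpow_mem m)) hk
  convert this using 1
  unfold e
  rw [zpow_add₀ c.hq0]
  ring

theorem Cc_zero : c.Cc 0 - 1 ∈ c.I 1 := by
  -- numerator and denominator products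
  set a : ℕ → K := fun i => c.e (2 * ((i : ℤ) + 1) - 1) ^ 4 * c.e (4 * ((i : ℤ) + 1) - 2) with ha
  set b : ℕ → K := fun i => c.e (2 * ((i : ℤ) + 1)) ^ 4 * c.e (4 * ((i : ℤ) + 1)) with hb
  set r : ℕ → K := fun i => c.q ^ (-12 * ((i : ℤ) + 1)) with hr
  have hP : c.P (2 * c.M) 0 = (∏ i ∈ range (2 * c.M), a i) / ∏ i ∈ range (2 * c.M), b i := by
    rw [← prod_div_distrib]
    unfold P
    apply prod_congr rfl
    intro i _
    simp [f, ha, hb]
  have hbO : ∀ i ∈ range (2 * c.M), b i ∈ c.O := fun i _ =>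
    c.O.mul_mem (c.O.pow_mem (c.e_mem _) _) (c.e_mem _)
  have hrO : ∀ i ∈ range (2 * c.M), r i ∈ c.O := fun i _ => c.zpow_mem _
  have hbinv : (∏ i ∈ range (2 * c.M), b i)⁻¹ ∈ c.O := by
    rw [← prod_inv_distrib]
    apply c.O.prod_mem
    intro i hi
    have := mem_range.1 hi
    have e2 := c.e_inv_mem (not_dvd_even (c := c) (i := (i : ℤ) + 1) (by omega) (by omega) 0)
    have e4 := c.e_inv_mem (not_dvd_even2 (c := c) (i := (i : ℤ) + 1) (by omega) (by omega) 0)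
    rw [mul_zero, zero_add] at e2 e4
    rw [hb]
    simp only
    rw [mul_inv, ← inv_pow]
    exact c.O.mul_mem (c.O.pow_mem e2 _) e4
  have hbne : (∏ i ∈ range (2 * c.M), b i) ≠ 0 := by
    rw [prod_ne_zero_iff]
    intro i hi
    exact mul_ne_zero (pow_ne_zero _ (c.e_ne (by omega))) (c.e_ne (by omega))
  -- reflect the numerator
  have hnum : ∏ i ∈ range (2 * c.M), a i - ∏ i ∈ range (2 * c.M), (-(r i) * b i) ∈ c.I 1 := by
    rw [← prod_range_reflect]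
    apply I_prod_congr
    · intro i _
      exact c.O.mul_mem (c.O.pow_mem (c.e_mem _) _) (c.e_mem _)
    · intro i hi
      exact c.O.mul_mem (c.O.neg_mem (hrO i hi)) (hbO i hi)
    · intro i hi
      have hi' := mem_range.1 hi
      have hcast : ((2 * c.M - 1 - i : ℕ) : ℤ) = 2 * c.M - 1 - i := by omega
      simp only [ha, hb, hr, hcast]
      have h1 := e_congr (c := c) (-(2 * ((i : ℤ) + 1))) 1
      have h2 := e_congr (c := c) (-(4 * ((i : ℤ) + 1))) 2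
      rw [show -(2 * ((i : ℤ) + 1)) + (4 * (c.M : ℤ) + 1) * 1 =
        2 * (2 * (c.M : ℤ) - 1 - i + 1) - 1 by ring] at h1
      rw [show -(4 * ((i : ℤ) + 1)) + (4 * (c.M : ℤ) + 1) * 2 =
        4 * (2 * (c.M : ℤ) - 1 - i + 1) - 2 by ring] at h2
      have h3 := I_mul_congr (c.O.pow_mem (c.e_mem _) 4) (c.e_mem _)
        (I_pow_congr (c.e_mem _) (c.e_mem _) h1 4) h2
      convert h3 using 2
      rw [e_neg, e_neg]
      have h4 : c.q ^ (-12 * ((i : ℤ) + 1)) = (c.q ^ (-(2 * ((i : ℤ) + 1)))) ^ 4 *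
          c.q ^ (-(4 * ((i : ℤ) + 1))) := by
        rw [← zpow_natCast, ← zpow_mul, ← zpow_add₀ c.hq0]
        congr 1
        push_cast
        ring
      rw [h4]
      ring
  have hprod : ∏ i ∈ range (2 * c.M), (-(r i) * b i) =
      c.q ^ (-6 * ((2 * (c.M : ℤ)) * (2 * c.M + 1))) * ∏ i ∈ range (2 * c.M), b i := by
    rw [prod_mul_distrib]
    congr 1
    have : ∀ N : ℕ, ∏ i ∈ range N, (-(r i)) =
        (-1) ^ N * c.q ^ (-6 * ((N : ℤ) * (N + 1))) := by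
      intro N
      induction N with
      | zero => simp
      | succ N ih =>
        rw [prod_range_succ, ih]
        simp only [hr]
        rw [pow_succ]
        have : c.q ^ (-6 * (((N + 1 : ℕ) : ℤ) * (((N + 1 : ℕ) : ℤ) + 1))) =
          c.q ^ (-6 * ((N : ℤ) * (N + 1))) * c.q ^ (-12 * ((N : ℤ) + 1)) := by
          rw [← zpow_add₀ c.hq0]
          congr 1
          push_cast
          ring
        rw [this]
        ring
    rw [this, pow_mul]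
    push_cast
    norm_num
  have h5 : c.P (2 * c.M) 0 - c.q ^ (-6 * ((2 * (c.M : ℤ)) * (2 * c.M + 1))) ∈ c.I 1 := by
    have := c.mul_mem_I_right hnum hbinv
    convert this using 1
    rw [hP, hprod]
    field_simp
  have h6 : c.q ^ (10 * (c.M : ℤ) + 1) * c.q ^ (-6 * ((2 * (c.M : ℤ)) * (2 * c.M + 1))) - 1
      ∈ c.I 1 := by
    rw [← zpow_add₀ c.hq0]
    have h7 := c.neg_mem_I (e_congr (c := c) 0 (-(6 * c.M - 1)))
    convert h7 using 1
    unfold e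
    rw [show 10 * (c.M : ℤ) + 1 + -6 * (2 * c.M * (2 * c.M + 1)) =
      0 + (4 * (c.M : ℤ) + 1) * -(6 * c.M - 1) by ring]
    simp
  have h8 := c.mul_mem_I_left (c.zpow_mem (10 * (c.M : ℤ) + 1)) h5
  have h9 := c.add_mem_I h8 h6
  convert h9 using 1
  unfold Cc
  rw [mul_zero, add_zero]
  ring

/-! ### Approximations -/

theorem PP.congr {f : ℤ → K} (hf : c.PP f) (s t : ℤ) : f s - f t ∈ c.I 1 := by
  obtain ⟨A, hA, B, hB, C, hC, h⟩ := hf
  have h1 := c.I_anti (show 1 ≤ 3 by norm_num) (c.sub_mem_I (h s) (h t))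
  have h2 : ∀ s : ℤ, B * (c.u * s) + C * (c.u * s) ^ 2 ∈ c.I 1 := fun s =>
    ⟨B * s + C * (c.u * s ^ 2), c.O.add_mem (c.O.mul_mem hB (c.int_mem s))
      (c.O.mul_mem hC (c.O.mul_mem c.u_mem (c.O.pow_mem (c.int_mem s) 2))), by ring⟩
  have := c.add_mem_I h1 (c.sub_mem_I (h2 s) (h2 t))
  convert this using 1
  ring

theorem mem_I_one {x : K} : x ∈ c.I 1 ↔ ∃ y ∈ c.O, x = c.u * y := by
  simp [I]

theorem two_mul_mem_I {k : ℕ} {x : K} (h : 2 * x ∈ c.I k) : x ∈ c.I k := by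
  have := c.mul_mem_I_left c.two_inv_mem h
  convert this using 1
  field_simp

theorem Cc_approx : ∃ a ∈ c.O, c.Cc 0 = 1 + c.u * a ∧
    ∀ s : ℤ, c.Cc s - (1 + c.u * a * (1 + 2 * s)) ∈ c.I 2 := by
  obtain ⟨a, ha, hCa⟩ := mem_I_one.1 (Cc_zero (c := c))
  have hC0 : c.Cc 0 = 1 + c.u * a := by rw [← hCa]; ring
  refine ⟨a, ha, hC0, ?_⟩
  obtain ⟨A, hA, B, hB, C, hC, h⟩ := Cc_PP (c := c)
  have h2 : ∀ s : ℤ, c.Cc s - (A + B * (c.u * s)) ∈ c.I 2 := by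
    intro s
    have h1 := c.I_anti (show 2 ≤ 3 by norm_num) (h s)
    have h3 : C * (c.u * s) ^ 2 ∈ c.I 2 :=
      ⟨C * s ^ 2, c.O.mul_mem hC (c.O.pow_mem (c.int_mem s) 2), by ring⟩
    have := c.add_mem_I h1 h3
    convert this using 1
    ring
  have h0 : 1 + c.u * a - A ∈ c.I 2 := by
    have := h2 0
    rw [hC0] at this
    simpa using this
  have h1 := h2 (-1)
  have hm := Cc_mul (c := c) 0
  rw [show (-1 : ℤ) - 0 = -1 by norm_num, hC0] at hm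
  -- 2 a - B in I 1
  have h4 : 2 * a - B ∈ c.I 1 := by
    rw [← c.u_mul_mem_I (k := 1)]
    have hua : 1 + c.u * a ∈ c.O := c.O.add_mem c.O.one_mem (c.O.mul_mem c.u_mem ha)
    have e1 := c.mul_mem_I_right (c.add_mem_I h1 (c.neg_mem_I h0)) hua
    have e2 : c.u ^ 2 * (a ^ 2 - a * B) ∈ c.I 2 :=
      ⟨_, c.O.sub_mem (c.O.pow_mem ha 2) (c.O.mul_mem ha hB), rfl⟩
    have := c.neg_mem_I (c.add_mem_I e1 e2)
    convert this using 1
    push_cast
    linear_combination hm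
  intro s
  have h5 : c.u * (s * (2 * a - B)) ∈ c.I 2 := c.u_mul_mem_I.2 (c.mul_mem_I_left (c.int_mem s) h4)
  have := c.sub_mem_I (c.sub_mem_I (h2 s) h0) h5
  convert this using 1
  ring

theorem F_zero_mem (hM : 0 < c.M) : c.F 0 ∈ c.I 1 := by
  have h1 := (F_PP hM).congr 0 (-1)
  have h2 := F_reflect (c := c) 0
  have h3 := Cc_zero (c := c)
  have h4 := c.mul_mem_I_left ((F_PP hM).mem (-1)) h3
  apply two_mul_mem_I
  have := c.sub_mem_I h1 h4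
  convert this using 1
  rw [show (-1 : ℤ) - 0 = -1 by norm_num] at h2
  linear_combination h2

theorem F_approx (hM : 0 < c.M) {a : K} (ha : a ∈ c.O) (hC0 : c.Cc 0 = 1 + c.u * a)
    (hC : ∀ s : ℤ, c.Cc s - (1 + c.u * a * (1 + 2 * s)) ∈ c.I 2) (s : ℤ) :
    c.F s - (1 + 2 * s) * (1 + a * c.u * s) * c.F 0 ∈ c.I 3 := by
  obtain ⟨A1, hA1, hF0⟩ := mem_I_one.1 (F_zero_mem hM)
  obtain ⟨A, hA, B, hB, C, hC', h⟩ := F_PP hM
  have h0 : c.F 0 - A ∈ c.I 3 := by simpa using h 0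
  have hF : ∀ s : ℤ, c.F s - c.u * (A1 + B * s + C * (c.u * s ^ 2)) ∈ c.I 3 := by
    intro s
    have := c.sub_mem_I (h s) h0
    convert this using 1
    rw [hF0]
    ring
  have r0 := F_reflect (c := c) 0
  have r1 := F_reflect (c := c) 1
  rw [show (-1 : ℤ) - 0 = -1 by norm_num, hC0, hF0] at r0
  rw [show (-1 : ℤ) - 1 = -2 by norm_num] at r1
  have hm1 := hF (-1)
  have hm2 := hF (-2)
  have hp1 := hF 1
  have hua : 1 + c.u * a ∈ c.O := c.O.add_mem c.O.one_mem (c.O.mul_mem c.u_mem ha)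
  -- first relation
  have g0 : (A1 - B + C * c.u) * (1 + c.u * a) + A1 ∈ c.I 2 := by
    rw [← c.u_mul_mem_I (k := 2)]
    have := c.neg_mem_I (c.mul_mem_I_right hm1 hua)
    convert this using 1
    push_cast
    linear_combination r0
  have g1 : 2 * A1 - B ∈ c.I 1 := by
    have e1 := c.I_anti (show 1 ≤ 2 by norm_num) g0
    have e2 : c.u * (C + (A1 - B + C * c.u) * a) ∈ c.I 1 :=
      mem_I_one.2 ⟨_, c.O.add_mem hC' (c.O.mul_mem (c.O.add_mem (c.O.sub_mem hA1 hB)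
        (c.O.mul_mem hC' c.u_mem)) ha), rfl⟩
    have := c.sub_mem_I e1 e2
    convert this using 1
    ring
  obtain ⟨B1, hB1, hBB⟩ := mem_I_one.1 g1
  -- B = 2 A1 - u B1
  have hB' : B = 2 * A1 - c.u * B1 := by linear_combination -hBB
  -- B1 + C - a A1 in I 1
  have g2 : B1 + C - a * A1 ∈ c.I 1 := by
    rw [← c.u_mul_mem_I (k := 1)]
    have e2 : c.u ^ 2 * (B1 * a + C * a) ∈ c.I 2 :=
      ⟨_, c.O.add_mem (c.O.mul_mem hB1 ha) (c.O.mul_mem hC' ha), rfl⟩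
    have := c.sub_mem_I g0 e2
    convert this using 1
    rw [hB']
    ring
  -- second relation
  have hC1 := hC 1
  have hCc1 : c.Cc 1 ∈ c.O := Cc_PP.mem 1
  have g3 : (A1 - 2 * B + 4 * C * c.u) * c.Cc 1 + (A1 + B + C * c.u) ∈ c.I 2 := by
    rw [← c.u_mul_mem_I (k := 2)]
    have := c.neg_mem_I (c.add_mem_I (c.mul_mem_I_right hm2 hCc1) hp1)
    convert this using 1
    push_cast
    linear_combination r1
  have g4 : (A1 - 2 * B + 4 * C * c.u) * (1 + 3 * a * c.u) + (A1 + B + C * c.u) ∈ c.I 2 := by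
    have hO : A1 - 2 * B + 4 * C * c.u ∈ c.O :=
      c.O.add_mem (c.O.sub_mem hA1 (c.O.mul_mem (by simpa using c.nat_mem 2) hB))
        (c.O.mul_mem (c.O.mul_mem (by simpa using c.nat_mem 4) hC') c.u_mem)
    have e1 := c.mul_mem_I_left hO hC1
    have := c.sub_mem_I g3 e1
    convert this using 1
    push_cast
    ring
  have g5 : B1 + 5 * C - 9 * a * A1 ∈ c.I 1 := by
    rw [← c.u_mul_mem_I (k := 1)]
    have e2 : c.u ^ 2 * (3 * a * (2 * B1 + 4 * C)) ∈ c.I 2 := by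
      refine ⟨_, ?_, rfl⟩
      exact c.O.mul_mem (c.O.mul_mem (by simpa using c.nat_mem 3) ha)
        (c.O.add_mem (c.O.mul_mem (by simpa using c.nat_mem 2) hB1)
          (c.O.mul_mem (by simpa using c.nat_mem 4) hC'))
    have := c.sub_mem_I g4 e2
    convert this using 1
    rw [hB']
    ring
  have g6 : C - 2 * a * A1 ∈ c.I 1 := by
    apply two_mul_mem_I
    apply two_mul_mem_I
    have := c.sub_mem_I g5 g2
    convert this using 1
    ring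
  have g7 : B1 + a * A1 ∈ c.I 1 := by
    have := c.sub_mem_I g2 g6
    convert this using 1
    ring
  -- conclusion
  have k1 := c.u_mul_mem_I.2 (c.u_mul_mem_I.2 (c.mul_mem_I_left (c.int_mem s) g7))
  have k2 := c.u_mul_mem_I.2 (c.u_mul_mem_I.2
    (c.mul_mem_I_left (c.O.pow_mem (c.int_mem s) 2) g6))
  have := c.add_mem_I (c.sub_mem_I (hF s) k1) k2
  convert this using 1
  rw [hF0, hB']
  ring

end Ctx

end Pool.Agent.MP_40e425_nt.Core80
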