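import Mathlib

/-!
The exact summation needed for problem MP_40e425_nt, proved with a q-WZ certificate.
-/

set_option linter.unusedSectionVars false

namespace Pool.Agent.MP_40e425_nt.WZ80

open Finset

variable {K : Type} [Field K] (q : K)

/-- `1 - q ^ m` -/
def e (m : ℤ) : K := 1 - q ^ m

/-- one factor, `n = 4 * M + 1` -/
def g (M : ℕ) (i : ℤ) : K :=
  e q ((4 * (M : ℤ) + 1) + (2 * i - 1)) * e q ((2 * i - 1) - (4 * (M : ℤ) + 1)) *
      e q (2 * i - 1) ^ 2 * e q (4 * i - 2) /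
    (e q (2 * i - (4 * (M : ℤ) + 1)) * e q (2 * i + (4 * (M : ℤ) + 1)) *
      e q (2 * i) ^ 2 * e q (4 * i))

/-- the summand -/
def t (M k : ℕ) : K :=
  (-1) ^ k * q ^ (k : ℤ) * e q (4 * k + 1) / e q 1 * ∏ i ∈ range k, g q M ((i : ℤ) + 1)

/-- the closed form -/
def lam (M : ℕ) : K :=
  e q (4 * (M : ℤ) + 1) / e q 1 *
    ∏ j ∈ range M, (e q (4 * ((j : ℤ) + 1) - 2) / e q (4 * ((j : ℤ) + 1))) ^ 2

/-- auxiliary product -/
def W (M k : ℕ) : K :=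
  (-1) ^ k * q ^ (k : ℤ) / (e q (-(4 * (M : ℤ) + 1) - 1) * e q (-(4 * (M : ℤ) + 1) - 3)) *
    ∏ i ∈ range k, (e q ((4 * (M : ℤ) + 1) + 2 * i + 1) * e q (2 * i + 1) ^ 2 *
      e q (4 * i + 2) * e q (2 * i - (4 * (M : ℤ) + 1) - 3) /
    (e q (2 * i + 2 - (4 * (M : ℤ) + 1)) * e q (2 * i + 2 + (4 * (M : ℤ) + 1)) *
      e q (2 * i + 2) ^ 2 * e q (4 * i + 4)))

variable {q}
variable (hq0 : q ≠ 0) (hroot : ∀ m : ℤ, m ≠ 0 → q ^ m ≠ 1)

include hroot in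
theorem e_ne {m : ℤ} (h : m ≠ 0) : e q m ≠ 0 := fun h' => hroot m h (sub_eq_zero.1 h').symm

include hq0 hroot in
theorem t_eq (M k : ℕ) : t q M k = e q (4 * k + 1) / e q 1 * W q M k *
    (e q (2 * k - (4 * (M : ℤ) + 1) - 3) * e q (2 * k - (4 * (M : ℤ) + 1) - 1)) := by
  have h1 : e q 1 ≠ 0 := e_ne hroot (by norm_num)
  have h2 : e q (-(4 * (M : ℤ) + 1) - 1) ≠ 0 := e_ne hroot (by omega)
  have h3 : e q (-(4 * (M : ℤ) + 1) - 3) ≠ 0 := e_ne hroot (by omega)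
  have key : (-1) ^ k * q ^ (k : ℤ) * ∏ i ∈ range k, g q M ((i : ℤ) + 1) = W q M k *
    (e q (2 * k - (4 * (M : ℤ) + 1) - 3) * e q (2 * k - (4 * (M : ℤ) + 1) - 1)) := by
    unfold W
    induction k with
    | zero =>
      simp only [Nat.cast_zero, mul_zero, zero_sub, range_zero, prod_empty, pow_zero, zpow_zero]
      field_simp
    | succ k ih =>
      rw [prod_range_succ, prod_range_succ]
      have h4 : e q (2 * ((k : ℤ) + 1) - (4 * (M : ℤ) + 1)) ≠ 0 := e_ne hroot (by omega)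
      have h5 : e q (2 * ((k : ℤ) + 1) + (4 * (M : ℤ) + 1)) ≠ 0 := e_ne hroot (by omega)
      have h6 : e q (2 * ((k : ℤ) + 1)) ≠ 0 := e_ne hroot (by omega)
      have h7 : e q (4 * ((k : ℤ) + 1)) ≠ 0 := e_ne hroot (by omega)
      have hz : q ^ ((k + 1 : ℕ) : ℤ) = q ^ (k : ℤ) * q := by
        push_cast; rw [zpow_add_one₀ hq0]
      rw [hz, pow_succ]
      have r1 : (2 * ((k + 1 : ℕ) : ℤ) - (4 * (M : ℤ) + 1) - 3) =
        2 * k - (4 * (M : ℤ) + 1) - 1 := by push_cast; ring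
      have r2 : (2 * ((k + 1 : ℕ) : ℤ) - (4 * (M : ℤ) + 1) - 1) =
        2 * ((k : ℤ) + 1) - 1 - (4 * (M : ℤ) + 1) := by push_cast; ring
      rw [r1, r2]
      have r3 : (2 * (k : ℤ) + 2 - (4 * (M : ℤ) + 1)) = 2 * ((k : ℤ) + 1) - (4 * (M : ℤ) + 1) := by
        ring
      have r4 : (2 * (k : ℤ) + 2 + (4 * (M : ℤ) + 1)) = 2 * ((k : ℤ) + 1) + (4 * (M : ℤ) + 1) := by
        ring
      have r5 : (2 * (k : ℤ) + 2) = 2 * ((k : ℤ) + 1) := by ring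
      have r6 : (4 * (k : ℤ) + 4) = 4 * ((k : ℤ) + 1) := by ring
      rw [r3, r4, r5, r6]
      unfold g
      have r7 : (4 * (M : ℤ) + 1) + (2 * ((k : ℤ) + 1) - 1) = (4 * (M : ℤ) + 1) + 2 * k + 1 := by
        ring
      have r8 : 2 * ((k : ℤ) + 1) - 1 = 2 * k + 1 := by ring
      have r9 : 4 * ((k : ℤ) + 1) - 2 = 4 * k + 2 := by ring
      rw [r7, r8, r9]
      generalize e q (2 * ((k : ℤ) + 1) - (4 * (M : ℤ) + 1)) = E1 at *
      generalize e q (2 * ((k : ℤ) + 1) + (4 * (M : ℤ) + 1)) = E2 at *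
      generalize e q (2 * ((k : ℤ) + 1)) = E3 at *
      generalize e q (4 * ((k : ℤ) + 1)) = E4 at *
      generalize e q (4 * (M : ℤ) + 1 + 2 * k + 1) = E5 at *
      generalize e q (2 * (k : ℤ) + 1 - (4 * (M : ℤ) + 1)) = E6 at *
      generalize e q (2 * (k : ℤ) + 1) = E7 at *
      generalize e q (4 * (k : ℤ) + 2) = E8 at *
      generalize e q (2 * (k : ℤ) - (4 * (M : ℤ) + 1) - 3) = E9 at *
      generalize e q (2 * (k : ℤ) - (4 * (M : ℤ) + 1) - 1) = E10 at *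
      generalize e q (-(4 * (M : ℤ) + 1) - 1) = E11 at *
      generalize e q (-(4 * (M : ℤ) + 1) - 3) = E12 at *
      generalize q ^ (k : ℤ) = Q at *
      calc (-1) ^ k * -1 * (Q * q) * ((∏ i ∈ range k, g q M (↑i + 1)) *
            (E5 * E6 * E7 ^ 2 * E8 / (E1 * E2 * E3 ^ 2 * E4)))
          = ((-1) ^ k * Q * ∏ i ∈ range k, g q M (↑i + 1)) *
            (-q * (E5 * E6 * E7 ^ 2 * E8 / (E1 * E2 * E3 ^ 2 * E4))) := by ring
        _ = _ := by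
          rw [ih]
          ring
  unfold t
  rw [show (-1) ^ k * q ^ (k : ℤ) * e q (4 * k + 1) / e q 1 * ∏ i ∈ range k, g q M ((i : ℤ) + 1) =
    e q (4 * k + 1) / e q 1 * ((-1) ^ k * q ^ (k : ℤ) * ∏ i ∈ range k, g q M ((i : ℤ) + 1)) by ring,
    key]
  ring

include hq0 in
theorem W_succ (M k : ℕ) : W q M (k + 1) = W q M k *
    (-q * (e q ((4 * (M : ℤ) + 1) + 2 * k + 1) * e q (2 * k + 1) ^ 2 *
      e q (4 * k + 2) * e q (2 * k - (4 * (M : ℤ) + 1) - 3) /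
    (e q (2 * k + 2 - (4 * (M : ℤ) + 1)) * e q (2 * k + 2 + (4 * (M : ℤ) + 1)) *
      e q (2 * k + 2) ^ 2 * e q (4 * k + 4)))) := by
  unfold W
  rw [prod_range_succ]
  have hz : q ^ ((k + 1 : ℕ) : ℤ) = q ^ (k : ℤ) * q := by
    push_cast; rw [zpow_add_one₀ hq0]
  rw [hz, pow_succ]
  ring

/-- the quotient of `t (M + 1) k` and `W M k` up to `e (4 k + 1) / e 1`. -/
def R (q : K) (M k : ℕ) : K :=
  e q (-(4 * (M : ℤ) + 1) - 1) * e q (-(4 * (M : ℤ) + 1) - 3) *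
    (e q (2 * k + (4 * (M : ℤ) + 1) + 1) * e q (2 * k + (4 * (M : ℤ) + 1) + 3) *
      e q (2 * k - (4 * (M : ℤ) + 1)) * e q (2 * k - (4 * (M : ℤ) + 1) - 2) *
      e q ((4 * (M : ℤ) + 1) + 2) * e q ((4 * (M : ℤ) + 1) + 4)) /
    (e q ((4 * (M : ℤ) + 1) + 1) * e q ((4 * (M : ℤ) + 1) + 3) * e q (-(4 * (M : ℤ) + 1)) *
      e q (-(4 * (M : ℤ) + 1) - 2) * e q (2 * k + (4 * (M : ℤ) + 1) + 2) *
      e q (2 * k + (4 * (M : ℤ) + 1) + 4))

include hq0 hroot in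
theorem t_succ_eq (M k : ℕ) : t q (M + 1) k = e q (4 * k + 1) / e q 1 * W q M k * R q M k := by
  have h1 : e q 1 ≠ 0 := e_ne hroot (by norm_num)
  have a1 : e q (-(4 * (M : ℤ) + 1) - 1) ≠ 0 := e_ne hroot (by omega)
  have a2 : e q (-(4 * (M : ℤ) + 1) - 3) ≠ 0 := e_ne hroot (by omega)
  have a3 : e q ((4 * (M : ℤ) + 1) + 1) ≠ 0 := e_ne hroot (by omega)
  have a4 : e q ((4 * (M : ℤ) + 1) + 3) ≠ 0 := e_ne hroot (by omega)
  have a5 : e q (-(4 * (M : ℤ) + 1)) ≠ 0 := e_ne hroot (by omega)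
  have a6 : e q (-(4 * (M : ℤ) + 1) - 2) ≠ 0 := e_ne hroot (by omega)
  have key : (-1) ^ k * q ^ (k : ℤ) * ∏ i ∈ range k, g q (M + 1) ((i : ℤ) + 1) =
    W q M k * R q M k := by
    induction k with
    | zero =>
      have a7 : e q ((4 * (M : ℤ) + 1) + 2) ≠ 0 := e_ne hroot (by omega)
      have a8 : e q ((4 * (M : ℤ) + 1) + 4) ≠ 0 := e_ne hroot (by omega)
      simp only [W, R, range_zero, prod_empty, pow_zero, Nat.cast_zero, zpow_zero, mul_zero,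
        zero_add, zero_sub]
      field_simp
    | succ k ih =>
      rw [prod_range_succ, W_succ hq0]
      have b1 : e q (2 * k + (4 * (M : ℤ) + 1) + 1) ≠ 0 := e_ne hroot (by omega)
      have b2 : e q (2 * k + (4 * (M : ℤ) + 1) + 2) ≠ 0 := e_ne hroot (by omega)
      have b3 : e q (2 * k + (4 * (M : ℤ) + 1) + 4) ≠ 0 := e_ne hroot (by omega)
      have b4 : e q (2 * k + (4 * (M : ℤ) + 1) + 6) ≠ 0 := e_ne hroot (by omega)
      have b5 : e q (2 * k + 2 - (4 * (M : ℤ) + 1)) ≠ 0 := e_ne hroot (by omega)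
      have b6 : e q (2 * k - (4 * (M : ℤ) + 1) - 2) ≠ 0 := e_ne hroot (by omega)
      have b7 : e q (2 * (k : ℤ) + 2) ≠ 0 := e_ne hroot (by omega)
      have b8 : e q (4 * (k : ℤ) + 4) ≠ 0 := e_ne hroot (by omega)
      have hz : q ^ ((k + 1 : ℕ) : ℤ) = q ^ (k : ℤ) * q := by
        push_cast; rw [zpow_add_one₀ hq0]
      rw [hz, pow_succ]
      have hg : g q (M + 1) ((k : ℤ) + 1) =
          e q (2 * k + (4 * (M : ℤ) + 1) + 5) * e q (2 * k - (4 * (M : ℤ) + 1) - 3) *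
            e q (2 * k + 1) ^ 2 * e q (4 * k + 2) /
          (e q (2 * k - (4 * (M : ℤ) + 1) - 2) * e q (2 * k + (4 * (M : ℤ) + 1) + 6) *
            e q (2 * k + 2) ^ 2 * e q (4 * k + 4)) := by
        unfold g
        push_cast
        congr 1
        · congr 1
          · congr 1
            · congr 1
              · congr 1; ring
              · congr 1; ring
            · congr 2; ring
          · congr 1; ring
        · congr 1
          · congr 1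
            · congr 1
              · congr 1; ring
              · congr 1; ring
      have hR : R q M (k + 1) * (e q (2 * k + (4 * (M : ℤ) + 1) + 1) *
          e q (2 * k - (4 * (M : ℤ) + 1) - 2) * e q (2 * k + (4 * (M : ℤ) + 1) + 6)) =
          R q M k * (e q (2 * k + (4 * (M : ℤ) + 1) + 5) * e q (2 * k + 2 - (4 * (M : ℤ) + 1)) *
          e q (2 * k + (4 * (M : ℤ) + 1) + 2)) := by
        unfold R
        rw [show 2 * ((k + 1 : ℕ) : ℤ) + (4 * (M : ℤ) + 1) + 1 =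
            2 * k + (4 * (M : ℤ) + 1) + 3 by push_cast; ring,
          show 2 * ((k + 1 : ℕ) : ℤ) + (4 * (M : ℤ) + 1) + 3 =
            2 * k + (4 * (M : ℤ) + 1) + 5 by push_cast; ring,
          show 2 * ((k + 1 : ℕ) : ℤ) - (4 * (M : ℤ) + 1) =
            2 * k + 2 - (4 * (M : ℤ) + 1) by push_cast; ring,
          show 2 * (k : ℤ) + 2 - (4 * (M : ℤ) + 1) - 2 =
            2 * k - (4 * (M : ℤ) + 1) by ring,
          show 2 * ((k + 1 : ℕ) : ℤ) + (4 * (M : ℤ) + 1) + 2 =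
            2 * k + (4 * (M : ℤ) + 1) + 4 by push_cast; ring,
          show 2 * ((k + 1 : ℕ) : ℤ) + (4 * (M : ℤ) + 1) + 4 =
            2 * k + (4 * (M : ℤ) + 1) + 6 by push_cast; ring]
        field_simp
      rw [show (4 * (M : ℤ) + 1) + 2 * k + 1 = 2 * k + (4 * (M : ℤ) + 1) + 1 by ring,
        show 2 * (k : ℤ) + 2 + (4 * (M : ℤ) + 1) = 2 * k + (4 * (M : ℤ) + 1) + 2 by ring]
      rw [hg]
      have hR' : R q M (k + 1) = R q M k * (e q (2 * k + (4 * (M : ℤ) + 1) + 5) *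
          e q (2 * k + 2 - (4 * (M : ℤ) + 1)) * e q (2 * k + (4 * (M : ℤ) + 1) + 2)) /
          (e q (2 * k + (4 * (M : ℤ) + 1) + 1) *
          e q (2 * k - (4 * (M : ℤ) + 1) - 2) * e q (2 * k + (4 * (M : ℤ) + 1) + 6)) := by
        rw [← hR]
        field_simp
      rw [hR']
      generalize e q (2 * k + (4 * (M : ℤ) + 1) + 1) = E1 at *
      generalize e q (2 * k + (4 * (M : ℤ) + 1) + 2) = E2 at *
      generalize e q (2 * k + (4 * (M : ℤ) + 1) + 5) = E3 at *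
      generalize e q (2 * k + (4 * (M : ℤ) + 1) + 6) = E4 at *
      generalize e q (2 * k + 2 - (4 * (M : ℤ) + 1)) = E5 at *
      generalize e q (2 * k - (4 * (M : ℤ) + 1) - 2) = E6 at *
      generalize e q (2 * k - (4 * (M : ℤ) + 1) - 3) = E7 at *
      generalize e q (2 * (k : ℤ) + 1) = E8 at *
      generalize e q (4 * (k : ℤ) + 2) = E9 at *
      generalize e q (2 * (k : ℤ) + 2) = E10 at *
      generalize e q (4 * (k : ℤ) + 4) = E11 at *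
      generalize q ^ (k : ℤ) = Q at *
      calc (-1) ^ k * -1 * (Q * q) * ((∏ i ∈ range k, g q (M + 1) (↑i + 1)) *
            (E3 * E7 * E8 ^ 2 * E9 / (E6 * E4 * E10 ^ 2 * E11)))
          = ((-1) ^ k * Q * ∏ i ∈ range k, g q (M + 1) (↑i + 1)) *
            (-q * (E3 * E7 * E8 ^ 2 * E9 / (E6 * E4 * E10 ^ 2 * E11))) := by ring
        _ = _ := by
          rw [ih]
          field_simp
  unfold t
  rw [show (-1) ^ k * q ^ (k : ℤ) * e q (4 * k + 1) / e q 1 *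
      ∏ i ∈ range k, g q (M + 1) ((i : ℤ) + 1) = e q (4 * k + 1) / e q 1 *
      ((-1) ^ k * q ^ (k : ℤ) * ∏ i ∈ range k, g q (M + 1) ((i : ℤ) + 1)) by ring, key]
  ring

/-- the certificate -/
def Gc (q : K) (M k : ℕ) : K :=
  -(q ^ 2)⁻¹ * e q (2 * (4 * (M : ℤ) + 1) + 4) * e q ((4 * (M : ℤ) + 1) + 4) *
    (e q (2 * k - (4 * (M : ℤ) + 1)) * e q (2 * k) ^ 2 * e q (4 * k) /
      e q (2 * k + (4 * (M : ℤ) + 1) + 2)) * W q M k

theorem alg_fin {q w Z4 ZZ Y S3 S1 m D1 D2 A B C E : K} (hq0 : q ≠ 0) (hm : m ≠ 0) (h1 : D1 ≠ 0)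
    (h2 : D2 ≠ 0) (key : (q ^ 2)⁻¹ * Z4 * w * (ZZ * m * (q * A + B * D2) -
      Y * (S3 ^ 2 * C - q ^ 2 * S1 ^ 2 * (E * D1 * D2))) = 0) :
    q⁻¹ * ZZ * Z4 * (A / (D1 * D2)) * w - -(q ^ 2)⁻¹ * ZZ * Z4 * (B / D1) * w =
      (q ^ 2)⁻¹ * Z4 * S3 ^ 2 * (Y / m) * (C / (D1 * D2)) * w -
        Z4 * S1 ^ 2 * (Y / m * w * E) := by
  rw [← sub_eq_zero]
  have : q⁻¹ * ZZ * Z4 * (A / (D1 * D2)) * w - -(q ^ 2)⁻¹ * ZZ * Z4 * (B / D1) * w -
      ((q ^ 2)⁻¹ * Z4 * S3 ^ 2 * (Y / m) * (C / (D1 * D2)) * w -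
        Z4 * S1 ^ 2 * (Y / m * w * E)) = ((q ^ 2)⁻¹ * Z4 * w * (ZZ * m * (q * A + B * D2) -
      Y * (S3 ^ 2 * C - q ^ 2 * S1 ^ 2 * (E * D1 * D2)))) / (m * D1 * D2) := by
    field_simp
    ring
  rw [this, key, zero_div]

theorem alg_step {z y w : K} (hq0 : q ≠ 0) (hz0 : z ≠ 0)
    (h1 : 1 - q ≠ 0) (a1 : 1 - 1 / (z * q) ≠ 0) (a2 : 1 - 1 / (z * q ^ 3) ≠ 0)
    (a3 : 1 - z * q ≠ 0) (a4 : 1 - z * q ^ 3 ≠ 0) (a5 : 1 - 1 / z ≠ 0)
    (a6 : 1 - 1 / (z * q ^ 2) ≠ 0) (b2 : 1 - y * z * q ^ 2 ≠ 0) (b3 : 1 - y * z * q ^ 4 ≠ 0)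
    (b5 : 1 - y * q ^ 2 / z ≠ 0) (b7 : 1 - y * q ^ 2 ≠ 0) (b8 : 1 - y ^ 2 * q ^ 4 ≠ 0) :
    -(q ^ 2)⁻¹ * (1 - z ^ 2 * q ^ 4) * (1 - z * q ^ 4) *
          ((1 - y * q ^ 2 / z) * (1 - y * q ^ 2) ^ 2 * (1 - y ^ 2 * q ^ 4) /
            (1 - y * z * q ^ 4)) *
        (w *
          (-q *
            ((1 - y * z * q) * (1 - y * q) ^ 2 * (1 - y ^ 2 * q ^ 2) *
                (1 - y / (z * q ^ 3)) /
              ((1 - y * q ^ 2 / z) * (1 - y * z * q ^ 2) * (1 - y * q ^ 2) ^ 2 *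
                (1 - y ^ 2 * q ^ 4))))) -
      -(q ^ 2)⁻¹ * (1 - z ^ 2 * q ^ 4) * (1 - z * q ^ 4) *
          ((1 - y / z) * (1 - y) ^ 2 * (1 - y ^ 2) / (1 - y * z * q ^ 2)) *
        w =
    (1 - z) * (1 - z * q ^ 3) ^ 2 *
        ((1 - y ^ 2 * q) / (1 - q) * w *
          ((1 - 1 / (z * q)) * (1 - 1 / (z * q ^ 3)) *
              ((1 - y * z * q) * (1 - y * z * q ^ 3) * (1 - y / z) *
                    (1 - y / (z * q ^ 2)) *
                  (1 - z * q ^ 2) *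
                (1 - z * q ^ 4)) /
            ((1 - z * q) * (1 - z * q ^ 3) * (1 - 1 / z) * (1 - 1 / (z * q ^ 2)) *
                (1 - y * z * q ^ 2) *
              (1 - y * z * q ^ 4)))) -
      (1 - z * q ^ 4) * (1 - z * q) ^ 2 *
        ((1 - y ^ 2 * q) / (1 - q) * w * ((1 - y / (z * q ^ 3)) * (1 - y / (z * q)))) := by
  have k1 : (1 - 1 / (z * q)) = -(1 - z * q) / (z * q) := by field_simp; ring
  have k2 : (1 - 1 / (z * q ^ 3)) = -(1 - z * q ^ 3) / (z * q ^ 3) := by field_simp; ring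
  have k3 : (1 - 1 / z) = -(1 - z) / z := by field_simp; ring
  have k4 : (1 - 1 / (z * q ^ 2)) = -(1 - z * q ^ 2) / (z * q ^ 2) := by field_simp; ring
  have d0 : 1 - z ≠ 0 := by
    intro h; apply a5; rw [k3, h]; simp
  have d2 : 1 - z * q ^ 2 ≠ 0 := by
    intro h; apply a6; rw [k4, h]; simp
  have e1 : -(q ^ 2)⁻¹ * (1 - z ^ 2 * q ^ 4) * (1 - z * q ^ 4) *
          ((1 - y * q ^ 2 / z) * (1 - y * q ^ 2) ^ 2 * (1 - y ^ 2 * q ^ 4) /
            (1 - y * z * q ^ 4)) *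
        (w *
          (-q *
            ((1 - y * z * q) * (1 - y * q) ^ 2 * (1 - y ^ 2 * q ^ 2) *
                (1 - y / (z * q ^ 3)) /
              ((1 - y * q ^ 2 / z) * (1 - y * z * q ^ 2) * (1 - y * q ^ 2) ^ 2 *
                (1 - y ^ 2 * q ^ 4))))) =
      q⁻¹ * (1 - z ^ 2 * q ^ 4) * (1 - z * q ^ 4) *
        ((1 - y * z * q) * (1 - y * q) ^ 2 * (1 - y ^ 2 * q ^ 2) * (1 - y / (z * q ^ 3)) /
        ((1 - y * z * q ^ 2) * (1 - y * z * q ^ 4))) * w := by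
    generalize 1 - y * q ^ 2 / z = F1 at *
    generalize 1 - y * q ^ 2 = F2 at *
    generalize 1 - y ^ 2 * q ^ 4 = F3 at *
    generalize 1 - y * z * q ^ 2 = F4 at *
    generalize 1 - y * z * q ^ 4 = F5 at *
    generalize 1 - y / (z * q ^ 3) = F6 at *
    field_simp
  have e2 : (1 - z) * (1 - z * q ^ 3) ^ 2 *
        ((1 - y ^ 2 * q) / (1 - q) * w *
          ((1 - 1 / (z * q)) * (1 - 1 / (z * q ^ 3)) *
              ((1 - y * z * q) * (1 - y * z * q ^ 3) * (1 - y / z) *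
                    (1 - y / (z * q ^ 2)) *
                  (1 - z * q ^ 2) *
                (1 - z * q ^ 4)) /
            ((1 - z * q) * (1 - z * q ^ 3) * (1 - 1 / z) * (1 - 1 / (z * q ^ 2)) *
                (1 - y * z * q ^ 2) *
              (1 - y * z * q ^ 4)))) =
      (q ^ 2)⁻¹ * (1 - z * q ^ 4) * (1 - z * q ^ 3) ^ 2 * ((1 - y ^ 2 * q) / (1 - q)) *
        ((1 - y * z * q) * (1 - y * z * q ^ 3) * (1 - y / z) * (1 - y / (z * q ^ 2)) /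
        ((1 - y * z * q ^ 2) * (1 - y * z * q ^ 4))) * w := by
    rw [k1, k2, k3, k4]
    generalize 1 - y / z = F1 at *
    generalize 1 - y / (z * q ^ 2) = F2 at *
    generalize 1 - z = F3 at *
    generalize 1 - z * q ^ 2 = F4 at *
    generalize 1 - z * q = F5 at *
    generalize 1 - z * q ^ 3 = F6 at *
    generalize 1 - z * q ^ 4 = F7 at *
    generalize 1 - y * z * q ^ 2 = F8 at *
    generalize 1 - y * z * q ^ 4 = F9 at *
    generalize 1 - q = F10 at *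
    field_simp
  rw [e1, e2]
  clear e1 e2 a1 a2 a3 a4 a5 a6 b5 b7 b8 d0 d2 k1 k2 k3 k4
  have key : (q ^ 2)⁻¹ * (1 - z * q ^ 4) * w * ((1 - z ^ 2 * q ^ 4) * (1 - q) *
      (q * ((1 - y * z * q) * (1 - y * q) ^ 2 * (1 - y ^ 2 * q ^ 2) * (1 - y / (z * q ^ 3))) +
        (1 - y / z) * (1 - y) ^ 2 * (1 - y ^ 2) * (1 - y * z * q ^ 4)) -
      (1 - y ^ 2 * q) * ((1 - z * q ^ 3) ^ 2 * ((1 - y * z * q) * (1 - y * z * q ^ 3) *
        (1 - y / z) * (1 - y / (z * q ^ 2))) - q ^ 2 * (1 - z * q) ^ 2 *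
        ((1 - y / (z * q ^ 3)) * (1 - y / (z * q)) * (1 - y * z * q ^ 2) *
          (1 - y * z * q ^ 4)))) = 0 := by
    have : ((1 - z ^ 2 * q ^ 4) * (1 - q) *
      (q * ((1 - y * z * q) * (1 - y * q) ^ 2 * (1 - y ^ 2 * q ^ 2) * (1 - y / (z * q ^ 3))) +
        (1 - y / z) * (1 - y) ^ 2 * (1 - y ^ 2) * (1 - y * z * q ^ 4)) -
      (1 - y ^ 2 * q) * ((1 - z * q ^ 3) ^ 2 * ((1 - y * z * q) * (1 - y * z * q ^ 3) *
        (1 - y / z) * (1 - y / (z * q ^ 2))) - q ^ 2 * (1 - z * q) ^ 2 *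
        ((1 - y / (z * q ^ 3)) * (1 - y / (z * q)) * (1 - y * z * q ^ 2) *
          (1 - y * z * q ^ 4)))) = 0 := by
      field_simp
      ring
    rw [this, mul_zero]
  exact alg_fin hq0 h1 b2 b3 key

include hq0 hroot in
theorem wz_step (M k : ℕ) :
    Gc q M (k + 1) - Gc q M k =
      e q (4 * (M : ℤ) + 1) * e q ((4 * (M : ℤ) + 1) + 3) ^ 2 * t q (M + 1) k -
      e q ((4 * (M : ℤ) + 1) + 4) * e q ((4 * (M : ℤ) + 1) + 1) ^ 2 * t q M k := by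
  rw [t_succ_eq hq0 hroot, t_eq hq0 hroot M k]
  unfold Gc
  rw [W_succ hq0]
  unfold R
  have h1 : e q 1 ≠ 0 := e_ne hroot (by norm_num)
  have a1 : e q (-(4 * (M : ℤ) + 1) - 1) ≠ 0 := e_ne hroot (by omega)
  have a2 : e q (-(4 * (M : ℤ) + 1) - 3) ≠ 0 := e_ne hroot (by omega)
  have a3 : e q ((4 * (M : ℤ) + 1) + 1) ≠ 0 := e_ne hroot (by omega)
  have a4 : e q ((4 * (M : ℤ) + 1) + 3) ≠ 0 := e_ne hroot (by omega)
  have a5 : e q (-(4 * (M : ℤ) + 1)) ≠ 0 := e_ne hroot (by omega)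
  have a6 : e q (-(4 * (M : ℤ) + 1) - 2) ≠ 0 := e_ne hroot (by omega)
  have b2 : e q (2 * k + (4 * (M : ℤ) + 1) + 2) ≠ 0 := e_ne hroot (by omega)
  have b3 : e q (2 * k + (4 * (M : ℤ) + 1) + 4) ≠ 0 := e_ne hroot (by omega)
  have b5 : e q (2 * k + 2 - (4 * (M : ℤ) + 1)) ≠ 0 := e_ne hroot (by omega)
  have b7 : e q (2 * (k : ℤ) + 2) ≠ 0 := e_ne hroot (by omega)
  have b8 : e q (4 * (k : ℤ) + 4) ≠ 0 := e_ne hroot (by omega)
  rw [show (4 * (M : ℤ) + 1) + 2 * k + 1 = 2 * k + (4 * (M : ℤ) + 1) + 1 by ring,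
    show 2 * (k : ℤ) + 2 + (4 * (M : ℤ) + 1) = 2 * k + (4 * (M : ℤ) + 1) + 2 by ring,
    show 2 * ((k + 1 : ℕ) : ℤ) - (4 * (M : ℤ) + 1) =
      2 * k + 2 - (4 * (M : ℤ) + 1) by push_cast; ring,
    show 2 * ((k + 1 : ℕ) : ℤ) = 2 * k + 2 by push_cast; ring,
    show 4 * ((k + 1 : ℕ) : ℤ) = 4 * k + 4 by push_cast; ring,
    show 2 * (k : ℤ) + 2 + (4 * (M : ℤ) + 1) + 2 = 2 * k + (4 * (M : ℤ) + 1) + 4 by ring]
  -- variables
  have hz0 : q ^ (4 * (M : ℤ) + 1) ≠ 0 := zpow_ne_zero _ hq0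
  have hy0 : q ^ (2 * (k : ℤ)) ≠ 0 := zpow_ne_zero _ hq0
  have pz : ∀ j : ℕ, e q (4 * (M : ℤ) + 1 + j) = 1 - q ^ (4 * (M : ℤ) + 1) * q ^ j := by
    intro j; unfold e; rw [zpow_add₀ hq0, zpow_natCast]
  have pzn : ∀ j : ℕ, e q (-(4 * (M : ℤ) + 1) - j) = 1 - 1 / (q ^ (4 * (M : ℤ) + 1) * q ^ j) := by
    intro j; unfold e
    rw [zpow_sub₀ hq0, zpow_neg, zpow_natCast]
    field_simp
  have pyz : ∀ j : ℕ, e q (2 * k + (4 * (M : ℤ) + 1) + j) =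
      1 - q ^ (2 * (k : ℤ)) * q ^ (4 * (M : ℤ) + 1) * q ^ j := by
    intro j; unfold e; rw [zpow_add₀ hq0, zpow_add₀ hq0, zpow_natCast]
  have pyzn : ∀ j : ℕ, e q (2 * k - (4 * (M : ℤ) + 1) - j) =
      1 - q ^ (2 * (k : ℤ)) / (q ^ (4 * (M : ℤ) + 1) * q ^ j) := by
    intro j; unfold e; rw [zpow_sub₀ hq0, zpow_sub₀ hq0, zpow_natCast, div_div]
  have py : ∀ j : ℕ, e q (2 * (k : ℤ) + j) = 1 - q ^ (2 * (k : ℤ)) * q ^ j := by
    intro j; unfold e; rw [zpow_add₀ hq0, zpow_natCast]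
  have py2 : ∀ j : ℕ, e q (4 * (k : ℤ) + j) = 1 - (q ^ (2 * (k : ℤ))) ^ 2 * q ^ j := by
    intro j; unfold e
    rw [zpow_add₀ hq0, zpow_natCast, show 4 * (k : ℤ) = 2 * k + 2 * k by ring,
      zpow_add₀ hq0, sq]
  have c1 := pz 0
  have c2 := pz 1
  have c3 := pz 2
  have c4 := pz 3
  have c5 := pz 4
  have c6 := pzn 0
  have c7 := pzn 1
  have c8 := pzn 2
  have c9 := pzn 3
  have c10 := pyz 1
  have c11 := pyz 2
  have c12 := pyz 3
  have c13 := pyz 4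
  have c14 := pyzn 0
  have c15 := pyzn 1
  have c16 := pyzn 2
  have c17 := pyzn 3
  have c18 := py 0
  have c19 := py 1
  have c20 := py 2
  have c21 := py2 0
  have c22 := py2 1
  have c23 := py2 2
  have c24 := py2 4
  have c25 : e q 1 = 1 - q := by unfold e; rw [zpow_one]
  have c26 : e q (2 * (4 * (M : ℤ) + 1) + 4) = 1 - (q ^ (4 * (M : ℤ) + 1)) ^ 2 * q ^ 4 := by
    unfold e
    rw [zpow_add₀ hq0, show 2 * (4 * (M : ℤ) + 1) = (4 * (M : ℤ) + 1) + (4 * (M : ℤ) + 1) by ring,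
      zpow_add₀ hq0, sq]
    norm_cast
  have c27 : e q (2 * k + 2 - (4 * (M : ℤ) + 1)) =
      1 - q ^ (2 * (k : ℤ)) * q ^ 2 / q ^ (4 * (M : ℤ) + 1) := by
    unfold e; rw [zpow_sub₀ hq0, zpow_add₀ hq0]; norm_cast
  simp only [Nat.cast_zero, Nat.cast_one, Nat.cast_ofNat, add_zero, sub_zero, pow_zero,
    mul_one, pow_one] at c1 c2 c3 c4 c5 c6 c7 c8 c9 c10 c11 c12 c13 c14 c15 c16 c17 c18
  simp only [Nat.cast_zero, Nat.cast_one, Nat.cast_ofNat, add_zero, sub_zero, pow_zero,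
    mul_one, pow_one] at c19 c20 c21 c22 c23 c24
  rw [c1, c2, c3, c4, c5, c6, c7, c8, c9, c10, c11, c12, c13, c14, c15, c16, c17, c18, c19, c20,
    c21, c22, c23, c24, c25, c26, c27]
  rw [c25] at h1
  rw [c7] at a1
  rw [c9] at a2
  rw [c2] at a3
  rw [c4] at a4
  rw [c6] at a5
  rw [c8] at a6
  rw [c11] at b2
  rw [c13] at b3
  rw [c27] at b5
  rw [c20] at b7
  rw [c24] at b8
  generalize q ^ (4 * (M : ℤ) + 1) = z at *
  generalize q ^ (2 * (k : ℤ)) = y at *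
  generalize W q M k = w
  clear pz pzn pyz pyzn py py2 c1 c2 c3 c4 c5 c6 c7 c8 c9 c10 c11 c12 c13 c14 c15 c16 c17 c18
  clear c19 c20 c21 c22 c23 c24 c25 c26 c27
  exact alg_step hq0 hz0 h1 a1 a2 a3 a4 a5 a6 b2 b3 b5 b7 b8

include hq0 hroot in
theorem wz_sum (M L : ℕ) :
    e q (4 * (M : ℤ) + 1) * e q ((4 * (M : ℤ) + 1) + 3) ^ 2 * ∑ k ∈ range L, t q (M + 1) k -
      e q ((4 * (M : ℤ) + 1) + 4) * e q ((4 * (M : ℤ) + 1) + 1) ^ 2 * ∑ k ∈ range L, t q M k =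
      Gc q M L := by
  induction L with
  | zero =>
    have : e q (2 * ((0 : ℕ) : ℤ)) = 0 := by simp [e]
    unfold Gc
    rw [this]
    simp
  | succ L ih =>
    rw [sum_range_succ, sum_range_succ]
    have := wz_step hq0 hroot M L
    linear_combination ih - this

theorem W_zero (M : ℕ) : W q M (2 * M + 3) = 0 := by
  unfold W
  have : ∏ i ∈ range (2 * M + 3), (e q ((4 * (M : ℤ) + 1) + 2 * i + 1) * e q (2 * i + 1) ^ 2 *
      e q (4 * i + 2) * e q (2 * i - (4 * (M : ℤ) + 1) - 3) /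
    (e q (2 * i + 2 - (4 * (M : ℤ) + 1)) * e q (2 * i + 2 + (4 * (M : ℤ) + 1)) *
      e q (2 * i + 2) ^ 2 * e q (4 * i + 4))) = 0 := by
    apply prod_eq_zero (i := 2 * M + 2) (mem_range.2 (by omega))
    have : e q (2 * ((2 * M + 2 : ℕ) : ℤ) - (4 * (M : ℤ) + 1) - 3) = 0 := by
      unfold e
      rw [show 2 * ((2 * M + 2 : ℕ) : ℤ) - (4 * (M : ℤ) + 1) - 3 = 0 by push_cast; ring]
      simp
    rw [this]
    simp
  rw [this, mul_zero]

theorem t_zero (M k : ℕ) (hk : 2 * M + 1 ≤ k) : t q M k = 0 := by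
  unfold t
  have : ∏ i ∈ range k, g q M ((i : ℤ) + 1) = 0 := by
    apply prod_eq_zero (i := 2 * M) (mem_range.2 (by omega))
    unfold g
    have : e q ((2 * (((2 * M : ℕ) : ℤ) + 1) - 1) - (4 * (M : ℤ) + 1)) = 0 := by
      unfold e
      rw [show (2 * (((2 * M : ℕ) : ℤ) + 1) - 1) - (4 * (M : ℤ) + 1) = 0 by push_cast; ring]
      simp
    rw [this]
    simp
  rw [this, mul_zero]

include hq0 hroot in
/-- The exact evaluation. -/
theorem sum_t (M : ℕ) : ∑ k ∈ range (2 * M + 1), t q M k = lam q M := by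
  induction M with
  | zero =>
    have h1 : e q 1 ≠ 0 := e_ne hroot (by norm_num)
    simp [t, lam, h1]
  | succ M ih =>
    have h := wz_sum hq0 hroot M (2 * M + 3)
    have hG : Gc q M (2 * M + 3) = 0 := by unfold Gc; rw [W_zero, mul_zero]
    rw [hG, sum_range_succ (fun k => t q M k), sum_range_succ (fun k => t q M k),
      t_zero M (2 * M + 1) (by omega), t_zero M (2 * M + 1 + 1) (by omega), ih] at h
    have a1 : e q (4 * (M : ℤ) + 1) ≠ 0 := e_ne hroot (by omega)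
    have a2 : e q ((4 * (M : ℤ) + 1) + 3) ≠ 0 := e_ne hroot (by omega)
    have h1 : e q 1 ≠ 0 := e_ne hroot (by norm_num)
    have hlam : e q (4 * (M : ℤ) + 1) * e q ((4 * (M : ℤ) + 1) + 3) ^ 2 * lam q (M + 1) =
        e q ((4 * (M : ℤ) + 1) + 4) * e q ((4 * (M : ℤ) + 1) + 1) ^ 2 * lam q M := by
      unfold lam
      rw [prod_range_succ]
      rw [show 4 * ((M + 1 : ℕ) : ℤ) + 1 = (4 * (M : ℤ) + 1) + 4 by push_cast; ring,
        show 4 * ((M : ℤ) + 1) - 2 = (4 * (M : ℤ) + 1) + 1 by ring,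
        show 4 * ((M : ℤ) + 1) = (4 * (M : ℤ) + 1) + 3 by ring]
      field_simp
    have h2 : e q (4 * (M : ℤ) + 1) * e q ((4 * (M : ℤ) + 1) + 3) ^ 2 ≠ 0 :=
      mul_ne_zero a1 (pow_ne_zero _ a2)
    apply mul_left_cancel₀ h2
    rw [hlam]
    rw [show 2 * (M + 1) + 1 = 2 * M + 3 by ring]
    linear_combination h

end Pool.Agent.MP_40e425_nt.WZ80
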