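import Pool.Agent.MP_40e425_nt.Core80
import Pool.Agent.MP_40e425_nt.WZ80

/-!
The block sums, for problem MP_40e425_nt.
-/

set_option linter.unusedSectionVars false

namespace Pool.Agent.MP_40e425_nt.Core80

open Finset

variable {K : Type} [Field K] [CharZero K] {c : Ctx K}

namespace Ctx

variable (c)

/-- `u ^ 2 / (1 + u)` -/
def w : K := c.u ^ 2 * (1 + c.u)⁻¹

/-- `q ^ x / (1 - q ^ x) ^ 2` -/
def dl (x : ℤ) : K := c.q ^ x * ((c.e x)⁻¹) ^ 2

/-- differences -/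
def ep (i : ℤ) : K := c.dl (2 * i) - c.dl (2 * i - 1)

/-- sums of differences -/
def E (j : ℕ) : K := ∑ i ∈ range j, c.ep ((i : ℤ) + 1)

variable {c}

theorem one_add_u_inv_mem : (1 + c.u)⁻¹ ∈ c.O := by
  rw [← zpow_n, ← zpow_neg]
  exact c.zpow_mem _

theorem w_mem : c.w ∈ c.I 2 := ⟨_, one_add_u_inv_mem, rfl⟩

theorem dl_neg (x : ℤ) : c.dl (-x) = c.dl x := by
  unfold dl
  rw [e_neg, zpow_neg]
  have h : c.q ^ x ≠ 0 := zpow_ne_zero _ c.hq0
  rw [mul_inv, mul_pow, inv_neg, inv_inv]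
  field_simp

theorem dl_mem {x : ℤ} (hx : ¬ (4 * (c.M : ℤ) + 1) ∣ x) : c.dl x ∈ c.O :=
  c.O.mul_mem (c.zpow_mem _) (c.O.pow_mem (c.e_inv_mem hx) 2)

theorem dl_congr {x : ℤ} (hx : ¬ (4 * (c.M : ℤ) + 1) ∣ x) :
    c.dl (x + (4 * (c.M : ℤ) + 1)) - c.dl x ∈ c.I 1 := by
  have hnd : ∀ s : ℤ, ¬ (4 * (c.M : ℤ) + 1) ∣ (4 * (c.M : ℤ) + 1) * s + x := by
    intro s h
    rw [dvd_add_right (Dvd.intro _ rfl)] at h
    exact hx h
  have h := (((PP_e (c := c) x).inv (fun s => e_ne' (hnd s))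
    (fun s => c.e_inv_mem (hnd s))).pow 2).mul
      ((PP_zpow (c := c)).mul (PP.const (c.zpow_mem x)))
  have := h.congr 1 0
  convert this using 2
  · unfold dl
    rw [← zpow_add₀ c.hq0]
    rw [show (4 * (c.M : ℤ) + 1) * 1 + x = x + (4 * (c.M : ℤ) + 1) by ring]
    ring
  · unfold dl
    simp
    ring

theorem not_dvd_small {x : ℤ} (h1 : 1 ≤ x) (h2 : x ≤ 4 * c.M) : ¬ (4 * (c.M : ℤ) + 1) ∣ x := by
  intro h
  have := Int.le_of_dvd (by omega) h
  omega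

theorem ep_mem {i : ℤ} (h1 : 1 ≤ i) (h2 : i ≤ 2 * c.M) : c.ep i ∈ c.O :=
  c.O.sub_mem (dl_mem (not_dvd_small (by omega) (by omega)))
    (dl_mem (not_dvd_small (by omega) (by omega)))

theorem ep_reflect {i : ℤ} (h1 : 1 ≤ i) (h2 : i ≤ 2 * c.M) :
    c.ep (2 * c.M + 1 - i) + c.ep i ∈ c.I 1 := by
  have n1 : ¬ (4 * (c.M : ℤ) + 1) ∣ -(2 * i - 1) := by
    rw [dvd_neg]; exact not_dvd_small (by omega) (by omega)
  have n2 : ¬ (4 * (c.M : ℤ) + 1) ∣ -(2 * i) := by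
    rw [dvd_neg]; exact not_dvd_small (by omega) (by omega)
  have e1 := dl_congr n1
  have e2 := dl_congr n2
  rw [dl_neg] at e1 e2
  have := c.sub_mem_I e1 e2
  convert this using 1
  unfold ep
  rw [show 2 * (2 * (c.M : ℤ) + 1 - i) = -(2 * i - 1) + (4 * c.M + 1) by ring,
    show -(2 * i - 1) + (4 * (c.M : ℤ) + 1) - 1 = -(2 * i) + (4 * c.M + 1) by ring]
  ring

theorem E_mem {j : ℕ} (hj : j ≤ 2 * c.M) : c.E j ∈ c.O := by
  unfold E
  apply c.O.sum_mem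
  intro i hi
  have := mem_range.1 hi
  exact ep_mem (by omega) (by omega)

theorem E_full : c.E (2 * c.M) ∈ c.I 1 := by
  apply two_mul_mem_I
  have : 2 * c.E (2 * c.M) = ∑ i ∈ range (2 * c.M), (c.ep (2 * c.M + 1 - ((i : ℤ) + 1)) +
      c.ep ((i : ℤ) + 1)) := by
    rw [sum_add_distrib, two_mul]
    congr 1
    unfold E
    rw [← sum_range_reflect]
    apply sum_congr rfl
    intro i hi
    have hi' := mem_range.1 hi
    congr 1
    omega
  rw [this]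
  apply c.sum_mem_I
  intro i hi
  have := mem_range.1 hi
  exact ep_reflect (by omega) (by omega)

theorem E_reflect {j : ℕ} (hj : j ≤ 2 * c.M) : c.E (2 * c.M - j) - c.E j ∈ c.I 1 := by
  induction j with
  | zero =>
    have h0 : c.E 0 = 0 := by simp [E]
    rw [h0, sub_zero, Nat.sub_zero]
    exact E_full
  | succ j ih =>
    have h1 := ih (by omega)
    have h2 : c.E (2 * c.M - j) = c.E (2 * c.M - (j + 1)) + c.ep (2 * c.M + 1 - ((j : ℤ) + 1)) := by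
      have : 2 * c.M - j = (2 * c.M - (j + 1)) + 1 := by omega
      rw [this]
      unfold E
      rw [sum_range_succ]
      congr 2
      push_cast [Nat.cast_sub hj]
      ring
    have h3 : c.E (j + 1) = c.E j + c.ep ((j : ℤ) + 1) := by
      unfold E
      rw [sum_range_succ]
    have h4 := ep_reflect (c := c) (i := (j : ℤ) + 1) (by omega) (by omega)
    have := c.sub_mem_I h1 h4
    convert this using 1
    rw [h2, h3]
    ring

theorem T_mem (hM : 0 < c.M) {j : ℕ} (hj : j ≤ 2 * c.M) (s : ℤ) : c.T j s ∈ c.O :=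
  (T_PP hM hj).mem s

theorem T_sum (hM : 0 < c.M) {j : ℕ} (hj : j ≤ 2 * c.M) :
    c.T j 0 + c.T (2 * c.M - j) 0 ∈ c.I 1 := by
  have h1 := (T_PP hM hj).congr 0 (-1)
  have h2 := T_reflect (c := c) hj 0
  rw [show (-1 : ℤ) - 0 = -1 by norm_num] at h2
  have h3 := c.mul_mem_I_left (T_mem hM hj (-1)) (Cc_zero (c := c))
  have := c.sub_mem_I h1 h3
  convert this using 1
  linear_combination h2

theorem sum_TE (hM : 0 < c.M) : ∑ j ∈ range (2 * c.M + 1), c.T j 0 * c.E j ∈ c.I 1 := by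
  apply two_mul_mem_I
  have : 2 * ∑ j ∈ range (2 * c.M + 1), c.T j 0 * c.E j =
      ∑ j ∈ range (2 * c.M + 1), (c.T j 0 * c.E j +
        c.T (2 * c.M - j) 0 * c.E (2 * c.M - j)) := by
    rw [sum_add_distrib, two_mul]
    congr 1
    rw [← sum_range_reflect]
    apply sum_congr rfl
    intro i hi
    have hi' := mem_range.1 hi
    rw [show 2 * c.M + 1 - 1 - i = 2 * c.M - i by omega]
  rw [this]
  apply c.sum_mem_I
  intro j hj
  have hj' : j ≤ 2 * c.M := by have := mem_range.1 hj; omega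
  have h1 := c.mul_mem_I_right (T_sum hM hj') (E_mem hj')
  have h2 := c.mul_mem_I_left (T_mem hM (show 2 * c.M - j ≤ 2 * c.M by omega) 0) (E_reflect hj')
  have := c.add_mem_I h1 h2
  convert this using 1
  ring

theorem e_e (x : ℤ) : c.e ((4 * (c.M : ℤ) + 1) + x) * c.e (x - (4 * (c.M : ℤ) + 1)) =
    c.e x ^ 2 - c.w * c.q ^ x := by
  unfold e w
  rw [zpow_add₀ c.hq0, zpow_sub₀ c.hq0, zpow_n]
  have := one_add_u_ne (c := c)
  field_simp
  ring

theorem g_f {i : ℤ} (h1 : 1 ≤ i) (h2 : i ≤ 2 * c.M) :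
    WZ80.g c.q c.M i - c.f i 0 * (1 + c.w * c.ep i) ∈ c.I 3 := by
  have nd1 := not_dvd_odd (c := c) h1 h2 0
  have nd2 := not_dvd_even (c := c) h1 h2 0
  have nd3 := not_dvd_odd2 (c := c) h1 h2 0
  have nd4 := not_dvd_even2 (c := c) h1 h2 0
  rw [mul_zero, zero_add] at nd1 nd2 nd3 nd4
  have nd5 : ¬ (4 * (c.M : ℤ) + 1) ∣ 2 * i - (4 * (c.M : ℤ) + 1) := by
    intro h; apply nd2; exact (dvd_sub_self_right).1 h
  have nd6 : ¬ (4 * (c.M : ℤ) + 1) ∣ 2 * i + (4 * (c.M : ℤ) + 1) := by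
    intro h; apply nd2; exact (dvd_add_self_right).1 h
  have m1 := c.e_inv_mem nd1
  have m2 := c.e_inv_mem nd2
  have m3 := c.e_inv_mem nd3
  have m4 := c.e_inv_mem nd4
  have m5 := c.e_inv_mem nd5
  have m6 := c.e_inv_mem nd6
  have z1 := e_ne' nd1
  have z2 := e_ne' nd2
  have z3 := e_ne' nd3
  have z4 := e_ne' nd4
  have z5 := e_ne' nd5
  have z6 := e_ne' nd6
  have ee1 := e_e (c := c) (2 * i - 1)
  have ee2 := e_e (c := c) (2 * i)
  have hf : c.f i 0 = c.e (2 * i - 1) ^ 4 * c.e (4 * i - 2) / (c.e (2 * i) ^ 4 * c.e (4 * i)) := by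
    unfold f
    simp
  have hg : WZ80.g c.q c.M i = (c.e (2 * i - 1) ^ 2 - c.w * c.q ^ (2 * i - 1)) *
      c.e (2 * i - 1) ^ 2 * c.e (4 * i - 2) / ((c.e (2 * i) ^ 2 - c.w * c.q ^ (2 * i)) *
      c.e (2 * i) ^ 2 * c.e (4 * i)) := by
    rw [← ee1, ← ee2]
    unfold WZ80.g
    change c.e _ * c.e _ * c.e _ ^ 2 * c.e _ / (c.e _ * c.e _ * c.e _ ^ 2 * c.e _) = _
    rw [show 2 * i + (4 * (c.M : ℤ) + 1) = (4 * (c.M : ℤ) + 1) + 2 * i by ring]
    ring
  have hne : c.e (2 * i) ^ 2 - c.w * c.q ^ (2 * i) ≠ 0 := by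
    rw [← ee2, show (4 * (c.M : ℤ) + 1) + 2 * i = 2 * i + (4 * (c.M : ℤ) + 1) by ring]
    exact mul_ne_zero z6 z5
  have hinv : (c.e (2 * i) ^ 2 - c.w * c.q ^ (2 * i))⁻¹ ∈ c.O := by
    rw [← ee2, show (4 * (c.M : ℤ) + 1) + 2 * i = 2 * i + (4 * (c.M : ℤ) + 1) by ring, mul_inv]
    exact c.O.mul_mem m6 m5
  have hw4 : c.w * c.w ∈ c.I 4 := c.mul_mem_I (j := 2) (k := 2) w_mem w_mem
  have hw3 := c.I_anti (show 3 ≤ 4 by norm_num) hw4
  have hrest : c.e (2 * i - 1) ^ 2 * c.e (4 * i - 2) * c.q ^ (2 * i) *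
      (c.q ^ (2 * i) * c.e (2 * i - 1) ^ 2 * (c.e (2 * i))⁻¹ ^ 2 - c.q ^ (2 * i - 1)) *
      ((c.e (2 * i))⁻¹ ^ 4 * (c.e (4 * i))⁻¹ * (c.e (2 * i) ^ 2 - c.w * c.q ^ (2 * i))⁻¹) ∈ c.O := by
    have o1 := c.e_mem (2 * i - 1)
    have o2 := c.e_mem (4 * i - 2)
    have o3 := c.zpow_mem (2 * i)
    have o4 := c.zpow_mem (2 * i - 1)
    exact c.O.mul_mem (c.O.mul_mem (c.O.mul_mem (c.O.mul_mem (c.O.pow_mem o1 2) o2) o3)
      (c.O.sub_mem (c.O.mul_mem (c.O.mul_mem o3 (c.O.pow_mem o1 2)) (c.O.pow_mem m2 2)) o4))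
      (c.O.mul_mem (c.O.mul_mem (c.O.pow_mem m2 4) m4) hinv)
  have := c.mul_mem_I_right hw3 hrest
  convert this using 1
  rw [hg, hf]
  unfold ep dl
  generalize c.e (2 * i - 1) = E1 at *
  generalize c.e (2 * i) = E2 at *
  generalize c.e (4 * i - 2) = E3 at *
  generalize c.e (4 * i) = E4 at *
  generalize c.q ^ (2 * i - 1) = Q1 at *
  generalize c.q ^ (2 * i) = Q2 at *
  field_simp
  ring

theorem prod_g {j : ℕ} (hj : j ≤ 2 * c.M) :
    ∏ i ∈ range j, WZ80.g c.q c.M ((i : ℤ) + 1) - c.P j 0 * (1 + c.w * c.E j) ∈ c.I 3 := by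
  induction j with
  | zero =>
    have : c.P 0 0 = 1 := by simp [P]
    rw [this]
    simpa [E] using c.zero_mem_I 3
  | succ j ih =>
    have h1 := ih (by omega)
    have h2 := g_f (c := c) (i := (j : ℤ) + 1) (by omega) (by omega)
    have hP : c.P (j + 1) 0 = c.P j 0 * c.f ((j : ℤ) + 1) 0 := by
      unfold P; rw [prod_range_succ]
    have hE : c.E (j + 1) = c.E j + c.ep ((j : ℤ) + 1) := by
      unfold E; rw [sum_range_succ]
    rw [prod_range_succ, hP, hE]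
    have hep := ep_mem (c := c) (i := (j : ℤ) + 1) (by omega) (by omega)
    have hEj := E_mem (c := c) (j := j) (by omega)
    have hPj := (P_PP (c := c) (j := j) (by omega)).mem 0
    have hfj := (f_PP (c := c) (i := (j : ℤ) + 1) (by omega) (by omega)).mem 0
    have hw := c.I_sub_O (w_mem (c := c))
    have hg : WZ80.g c.q c.M ((j : ℤ) + 1) ∈ c.O := by
      have := c.O.add_mem (c.I_sub_O h2) (c.O.mul_mem hfj (c.O.add_mem c.O.one_mem
        (c.O.mul_mem hw hep)))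
      simpa using this
    have h3 := c.mul_mem_I_right h1 hg
    have h4 : c.P j 0 * (1 + c.w * c.E j) ∈ c.O :=
      c.O.mul_mem hPj (c.O.add_mem c.O.one_mem (c.O.mul_mem hw hEj))
    have h5 := c.mul_mem_I_left h4 h2
    have hw4 : c.w * c.w ∈ c.I 4 := c.mul_mem_I (j := 2) (k := 2) w_mem w_mem
    have h6 := c.mul_mem_I_right (c.I_anti (show 3 ≤ 4 by norm_num) hw4)
      (c.O.mul_mem (c.O.mul_mem hPj hfj) (c.O.mul_mem hEj hep))
    have := c.add_mem_I (c.add_mem_I h3 h5) h6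
    convert this using 1
    ring

theorem not_dvd_one (hM : 0 < c.M) : ¬ (4 * (c.M : ℤ) + 1) ∣ 1 := by
  intro h
  have := Int.le_of_dvd (by norm_num) h
  omega

theorem q_root (m : ℤ) (hm : m ≠ 0) : c.q ^ m ≠ 1 := by
  intro h
  apply c.e_ne hm
  unfold e
  rw [h, sub_self]

theorem F_lam (hM : 0 < c.M) : c.F 0 - WZ80.lam c.q c.M ∈ c.I 3 := by
  rw [← WZ80.sum_t c.hq0 (q_root (c := c)) c.M]
  have h1 : ∀ j ∈ range (2 * c.M + 1), WZ80.t c.q c.M j - c.T j 0 * (1 + c.w * c.E j) ∈ c.I 3 := by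
    intro j hj
    have hj' : j ≤ 2 * c.M := by have := mem_range.1 hj; omega
    have h2 := prod_g hj'
    have hc : (-1) ^ j * c.q ^ (j : ℤ) * c.e (4 * j + 1) * (c.e 1)⁻¹ ∈ c.O :=
      c.O.mul_mem (c.O.mul_mem (c.O.mul_mem (c.O.pow_mem (c.O.neg_mem c.O.one_mem) _)
        (c.zpow_mem _)) (c.e_mem _)) (c.e_inv_mem (not_dvd_one hM))
    have := c.mul_mem_I_left hc h2
    convert this using 1
    unfold WZ80.t T
    change (-1) ^ j * c.q ^ (j : ℤ) * c.e (4 * j + 1) / c.e 1 * _ - _ = _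
    rw [mul_zero, zero_add]
    ring
  have h2 := c.sum_mem_I _ _ h1
  have h3 := c.I_anti (show 3 ≤ 2 + 1 by norm_num)
    (c.mul_mem_I (w_mem (c := c)) (sum_TE hM))
  have := c.neg_mem_I (c.add_mem_I h2 h3)
  convert this using 1
  unfold F
  rw [sum_sub_distrib, mul_sum]
  have : ∀ i ∈ range (2 * c.M + 1), c.T i 0 * (1 + c.w * c.E i) =
    c.T i 0 + c.w * (c.T i 0 * c.E i) := fun i _ => by ring
  rw [sum_congr rfl this, sum_add_distrib]
  ring

/-! ### Blocks -/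

variable (c)

/-- ratio of consecutive terms of the coefficient -/
def rho (k : ℤ) : K := c.e (2 * k - 1) ^ 4 * c.e (4 * k - 2) / (c.e (2 * k) ^ 4 * c.e (4 * k))

/-- coefficients -/
def a (k : ℕ) : K := ∏ i ∈ range k, c.rho ((i : ℤ) + 1)

/-- summands -/
def tt (k : ℕ) : K := (-1) ^ k * (c.e (4 * k + 1) / c.e 1) * c.a k * c.q ^ (k : ℤ)

variable {c}

theorem rho_f (r i : ℤ) : c.rho (r * (4 * (c.M : ℤ) + 1) + i) = c.f i (2 * r) := by
  unfold rho f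
  rw [show 2 * (r * (4 * (c.M : ℤ) + 1) + i) - 1 =
      (4 * (c.M : ℤ) + 1) * (2 * r) + (2 * i - 1) by ring,
    show 4 * (r * (4 * (c.M : ℤ) + 1) + i) - 2 =
      2 * (4 * (c.M : ℤ) + 1) * (2 * r) + (4 * i - 2) by ring,
    show 2 * (r * (4 * (c.M : ℤ) + 1) + i) =
      (4 * (c.M : ℤ) + 1) * (2 * r) + 2 * i by ring,
    show 4 * (r * (4 * (c.M : ℤ) + 1) + i) =
      2 * (4 * (c.M : ℤ) + 1) * (2 * r) + 4 * i by ring]

theorem a_add (k l : ℕ) : c.a (k + l) = c.a k * ∏ i ∈ range l, c.rho ((k : ℤ) + ((i : ℤ) + 1)) := by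
  unfold a
  rw [prod_range_add]
  have : ∀ i ∈ range l, c.rho (((k + i : ℕ) : ℤ) + 1) = c.rho ((k : ℤ) + ((i : ℤ) + 1)) := by
    intro i _
    have h : ((k + i : ℕ) : ℤ) + 1 = (k : ℤ) + ((i : ℤ) + 1) := by push_cast; ring
    rw [h]
  rw [prod_congr rfl this]

theorem a_first (r j : ℕ) : c.a (r * (4 * c.M + 1) + j) =
    c.a (r * (4 * c.M + 1)) * c.P j (2 * r) := by
  rw [a_add]
  congr 1
  unfold P
  apply prod_congr rfl
  intro i _
  push_cast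
  rw [rho_f]

theorem a_second (r : ℕ) {j : ℕ} (hj : j ≤ 2 * c.M) : c.a (r * (4 * c.M + 1) + 2 * c.M + (j + 1)) *
    (c.e ((4 * (c.M : ℤ) + 1) * (2 * r + 1) + (2 * j + 1)) ^ 4 *
      c.e (2 * (4 * (c.M : ℤ) + 1) * (2 * r + 1) + (4 * j + 2)) * c.P j (2 * r + 1)) =
    c.a (r * (4 * c.M + 1)) * c.P (2 * c.M) (2 * r) *
    (c.e ((4 * (c.M : ℤ) + 1) * (2 * r + 1)) ^ 4 *
      c.e (2 * (4 * (c.M : ℤ) + 1) * (2 * r + 1))) := by
  induction j with
  | zero =>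
    rw [← a_first, a_add (r * (4 * c.M + 1) + 2 * c.M) (0 + 1)]
    have h0 : c.P 0 (2 * r + 1) = 1 := by simp [P]
    rw [h0]
    simp only [zero_add, range_one, prod_singleton, Nat.cast_zero]
    unfold rho
    push_cast
    have n1 : c.e ((4 * (c.M : ℤ) + 1) * (2 * r + 1) + 1) ≠ 0 := by
      apply c.e_ne; positivity
    have n2 : c.e (2 * (4 * (c.M : ℤ) + 1) * (2 * r + 1) + 2) ≠ 0 := by
      apply c.e_ne; positivity
    rw [show 2 * (↑r * (4 * (c.M : ℤ) + 1) + 2 * ↑c.M + 1) - 1 =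
        (4 * (c.M : ℤ) + 1) * (2 * r + 1) by ring,
      show 4 * (↑r * (4 * (c.M : ℤ) + 1) + 2 * ↑c.M + 1) - 2 =
        2 * (4 * (c.M : ℤ) + 1) * (2 * r + 1) by ring,
      show 2 * (↑r * (4 * (c.M : ℤ) + 1) + 2 * ↑c.M + 1) =
        (4 * (c.M : ℤ) + 1) * (2 * r + 1) + 1 by ring,
      show 4 * (↑r * (4 * (c.M : ℤ) + 1) + 2 * ↑c.M + 1) =
        2 * (4 * (c.M : ℤ) + 1) * (2 * r + 1) + 2 by ring]
    field_simp
  | succ j ih =>
    have h1 := ih (by omega)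
    rw [← h1]
    have h2 : c.a (r * (4 * c.M + 1) + 2 * c.M + (j + 1 + 1)) =
        c.a (r * (4 * c.M + 1) + 2 * c.M + (j + 1)) *
          c.rho (r * (4 * (c.M : ℤ) + 1) + 2 * c.M + (j + 2)) := by
      rw [show r * (4 * c.M + 1) + 2 * c.M + (j + 1 + 1) =
        (r * (4 * c.M + 1) + 2 * c.M + (j + 1)) + 1 by ring, a_add _ 1]
      simp only [range_one, prod_singleton, Nat.cast_zero]
      have h : ((r * (4 * c.M + 1) + 2 * c.M + (j + 1) : ℕ) : ℤ) + (0 + 1) =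
        r * (4 * (c.M : ℤ) + 1) + 2 * c.M + (j + 2) := by push_cast; ring
      rw [h]
    have h3 : c.P (j + 1) (2 * r + 1) = c.P j (2 * r + 1) * c.f ((j : ℤ) + 1) (2 * r + 1) := by
      unfold P; rw [prod_range_succ]
    rw [h2, h3]
    unfold rho f
    have n1 : c.e ((4 * (c.M : ℤ) + 1) * (2 * r + 1) + (2 * j + 3)) ≠ 0 := by
      apply c.e_ne; positivity
    have n2 : c.e (2 * (4 * (c.M : ℤ) + 1) * (2 * r + 1) + (4 * j + 6)) ≠ 0 := by
      apply c.e_ne; positivity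
    have n3 : c.e ((4 * (c.M : ℤ) + 1) * (2 * r + 1) + (2 * j + 2)) ≠ 0 := by
      apply c.e_ne; positivity
    have n4 : c.e (2 * (4 * (c.M : ℤ) + 1) * (2 * r + 1) + (4 * j + 4)) ≠ 0 := by
      apply c.e_ne; positivity
    rw [show 2 * (↑r * (4 * (c.M : ℤ) + 1) + 2 * ↑c.M + (j + 2)) - 1 =
        (4 * (c.M : ℤ) + 1) * (2 * r + 1) + (2 * j + 2) by ring,
      show 4 * (↑r * (4 * (c.M : ℤ) + 1) + 2 * ↑c.M + (j + 2)) - 2 =
        2 * (4 * (c.M : ℤ) + 1) * (2 * r + 1) + (4 * j + 4) by ring,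
      show 2 * (↑r * (4 * (c.M : ℤ) + 1) + 2 * ↑c.M + (j + 2)) =
        (4 * (c.M : ℤ) + 1) * (2 * r + 1) + (2 * j + 3) by ring,
      show 4 * (↑r * (4 * (c.M : ℤ) + 1) + 2 * ↑c.M + (j + 2)) =
        2 * (4 * (c.M : ℤ) + 1) * (2 * r + 1) + (4 * j + 6) by ring]
    rw [show 2 * ((j : ℤ) + 1) - 1 = 2 * j + 1 by ring,
      show 4 * ((j : ℤ) + 1) - 2 = 4 * j + 2 by ring,
      show 2 * ((j : ℤ) + 1) = 2 * j + 2 by ring,
      show 4 * ((j : ℤ) + 1) = 4 * j + 4 by ring]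
    push_cast
    rw [show 2 * ((j : ℤ) + 1) + 1 = 2 * j + 3 by ring,
      show 4 * ((j : ℤ) + 1) + 2 = 4 * j + 6 by ring]
    field_simp

variable (c)

/-- coefficient at the start of a block -/
def A (r : ℕ) : K := c.q ^ ((r * (4 * c.M + 1) : ℕ) : ℤ) * c.a (r * (4 * c.M + 1))

/-- `[k]` with base `q ^ n` -/
def G (k : ℕ) : K := ∑ i ∈ range k, (c.q ^ (4 * c.M + 1)) ^ i

variable {c}

theorem neg_one_pow_block (r j : ℕ) : (-1 : K) ^ (r * (4 * c.M + 1) + j) = (-1) ^ r * (-1) ^ j := by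
  rw [pow_add, mul_comm r, pow_mul]
  congr 2
  rw [pow_succ, show 4 * c.M = 2 * (2 * c.M) by ring, pow_mul]
  norm_num

theorem tt_first (r : ℕ) (j : ℕ) :
    c.tt (r * (4 * c.M + 1) + j) = (-1) ^ r * c.A r * c.T j (2 * r) := by
  unfold tt A T
  rw [a_first, neg_one_pow_block]
  have h1 : c.q ^ ((r * (4 * c.M + 1) + j : ℕ) : ℤ) =
      c.q ^ ((r * (4 * c.M + 1) : ℕ) : ℤ) * c.q ^ (j : ℤ) := by
    rw [← zpow_add₀ c.hq0]; push_cast; rfl
  have h2 : (4 * ((r * (4 * c.M + 1) + j : ℕ) : ℤ) + 1) =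
      2 * (4 * (c.M : ℤ) + 1) * (2 * r) + (4 * j + 1) := by push_cast; ring
  rw [h1, h2]
  ring

theorem G_mem (k : ℕ) : c.G k ∈ c.O := c.geom_mem k

theorem G_inv_mem {k : ℕ} (hk : 0 < k) : (c.G k)⁻¹ ∈ c.O := c.hQ k hk

theorem e_n_mul (k : ℕ) : c.e ((4 * (c.M : ℤ) + 1) * k) = -c.u * c.G k := c.e_mul_n k

theorem G_ne {k : ℕ} (hk : 0 < k) : c.G k ≠ 0 := by
  intro h
  have h1 := e_n_mul (c := c) k
  rw [h, mul_zero] at h1
  exact c.e_ne (by positivity) h1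

theorem A_succ_aux (r : ℕ) : c.A (r + 1) * (c.G (2 * r + 2) ^ 4 * c.G (4 * r + 4) *
      c.P (2 * c.M) (2 * r + 1)) =
    c.A r * (1 + c.u) * (c.G (2 * r + 1) ^ 4 * c.G (4 * r + 2)) * c.P (2 * c.M) (2 * r) := by
  have h := a_second (c := c) r (le_refl (2 * c.M))
  rw [show r * (4 * c.M + 1) + 2 * c.M + (2 * c.M + 1) = (r + 1) * (4 * c.M + 1) by ring] at h
  rw [show (4 * (c.M : ℤ) + 1) * (2 * r + 1) + (2 * ((2 * c.M : ℕ) : ℤ) + 1) =
      (4 * (c.M : ℤ) + 1) * ((2 * r + 2 : ℕ) : ℤ) by push_cast; ring,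
    show 2 * (4 * (c.M : ℤ) + 1) * (2 * r + 1) + (4 * ((2 * c.M : ℕ) : ℤ) + 2) =
      (4 * (c.M : ℤ) + 1) * ((4 * r + 4 : ℕ) : ℤ) by push_cast; ring,
    show (4 * (c.M : ℤ) + 1) * (2 * r + 1) =
      (4 * (c.M : ℤ) + 1) * ((2 * r + 1 : ℕ) : ℤ) by push_cast; ring,
    show 2 * (4 * (c.M : ℤ) + 1) * (2 * r + 1) =
      (4 * (c.M : ℤ) + 1) * ((4 * r + 2 : ℕ) : ℤ) by push_cast; ring,
    e_n_mul, e_n_mul, e_n_mul, e_n_mul] at h
  have hu := c.u_ne
  have hA : c.A (r + 1) = (1 + c.u) * c.q ^ ((r * (4 * c.M + 1) : ℕ) : ℤ) *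
      c.a ((r + 1) * (4 * c.M + 1)) := by
    unfold A
    congr 1
    rw [← zpow_n, ← zpow_add₀ c.hq0]
    congr 1
    push_cast
    ring
  have h2 : c.a ((r + 1) * (4 * c.M + 1)) * (c.G (2 * r + 2) ^ 4 * c.G (4 * r + 4) *
      c.P (2 * c.M) (2 * r + 1)) = c.a (r * (4 * c.M + 1)) * c.P (2 * c.M) (2 * r) *
      (c.G (2 * r + 1) ^ 4 * c.G (4 * r + 2)) := by
    have hu5 : -c.u ^ 5 ≠ 0 := neg_ne_zero.2 (pow_ne_zero 5 hu)
    apply mul_left_cancel₀ hu5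
    linear_combination h
  rw [hA]
  unfold A
  linear_combination ((1 + c.u) * c.q ^ ((r * (4 * c.M + 1) : ℕ) : ℤ)) * h2

theorem A_succ (r : ℕ) : c.A (r + 1) * (c.G (2 * r + 2) ^ 4 * c.G (4 * r + 4) *
      c.Cc (2 * r + 1)) =
    c.A r * (1 + c.u) ^ 3 * (c.G (2 * r + 1) ^ 4 * c.G (4 * r + 2)) * c.Cc (2 * r) := by
  have h := A_succ_aux (c := c) r
  unfold Cc
  have h1 : c.q ^ (10 * (c.M : ℤ) + 1 + 2 * (4 * (c.M : ℤ) + 1) * (2 * r + 1)) =
      c.q ^ (10 * (c.M : ℤ) + 1 + 2 * (4 * (c.M : ℤ) + 1) * (2 * r)) * (1 + c.u) ^ 2 := by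
    rw [← zpow_n, ← zpow_natCast, ← zpow_mul, ← zpow_add₀ c.hq0]
    congr 1
    push_cast
    ring
  rw [h1]
  linear_combination (c.q ^ (10 * (c.M : ℤ) + 1 + 2 * (4 * (c.M : ℤ) + 1) * (2 * r)) *
    (1 + c.u) ^ 2) * h

variable (c)

/-- linear approximation modulo `u ^ 2` -/
def L2 (z x y : K) : Prop := x ∈ c.O ∧ y ∈ c.O ∧ z - (x + y * c.u) ∈ c.I 2

variable {c}

theorem L2.mem {z x y : K} (h : c.L2 z x y) : z ∈ c.O := by
  have := c.O.add_mem (c.I_sub_O h.2.2) (c.O.add_mem h.1 (c.O.mul_mem h.2.1 c.u_mem))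
  simpa using this

theorem L2.mul {z x y z' x' y' : K} (h : c.L2 z x y) (h' : c.L2 z' x' y') :
    c.L2 (z * z') (x * x') (x * y' + y * x') := by
  refine ⟨c.O.mul_mem h.1 h'.1, c.O.add_mem (c.O.mul_mem h.1 h'.2.1) (c.O.mul_mem h.2.1 h'.1), ?_⟩
  have h1 := c.mul_mem_I_right h.2.2 h'.mem
  have h2 := c.mul_mem_I_left (c.O.add_mem h.1 (c.O.mul_mem h.2.1 c.u_mem)) h'.2.2
  have h3 : c.u ^ 2 * (y * y') ∈ c.I 2 := ⟨_, c.O.mul_mem h.2.1 h'.2.1, rfl⟩
  have := c.add_mem_I (c.add_mem_I h1 h2) h3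
  convert this using 1
  ring

theorem L2.add {z x y z' x' y' : K} (h : c.L2 z x y) (h' : c.L2 z' x' y') :
    c.L2 (z + z') (x + x') (y + y') := by
  refine ⟨c.O.add_mem h.1 h'.1, c.O.add_mem h.2.1 h'.2.1, ?_⟩
  have := c.add_mem_I h.2.2 h'.2.2
  convert this using 1
  ring

theorem L2_one_add_u : c.L2 (1 + c.u) 1 1 :=
  ⟨c.O.one_mem, c.O.one_mem, by simpa using c.zero_mem_I 2⟩

theorem L2_pow (k : ℕ) : c.L2 ((1 + c.u) ^ k) 1 k := by
  induction k with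
  | zero => exact ⟨c.O.one_mem, by simpa using c.O.zero_mem, by simpa using c.zero_mem_I 2⟩
  | succ k ih =>
    have := ih.mul L2_one_add_u
    rw [pow_succ]
    convert this using 1
    · ring
    · push_cast; ring

theorem L2_G (k : ℕ) : c.L2 (c.G k) k ((k : K) * (k - 1) * 2⁻¹) := by
  induction k with
  | zero =>
    refine ⟨by simpa using c.O.zero_mem, by simpa using c.O.zero_mem, ?_⟩
    simpa [G] using c.zero_mem_I 2
  | succ k ih =>
    have h : c.G (k + 1) = c.G k + (1 + c.u) ^ k := by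
      unfold G
      rw [sum_range_succ]
      congr 2
      unfold u
      ring
    rw [h]
    have := ih.add (L2_pow k)
    convert this using 1
    · push_cast; ring
    · push_cast
      field_simp
      ring

theorem L2_Cc {a : K} (ha : a ∈ c.O)
    (hC : ∀ s : ℤ, c.Cc s - (1 + c.u * a * (1 + 2 * s)) ∈ c.I 2) (s : ℤ) :
    c.L2 (c.Cc s) 1 (a * (1 + 2 * s)) := by
  refine ⟨c.O.one_mem, c.O.mul_mem ha (c.O.add_mem c.O.one_mem
    (c.O.mul_mem (by simpa using c.nat_mem 2) (c.int_mem s))), ?_⟩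
  have := hC s
  convert this using 1
  ring

theorem Cc_inv_mem (s : ℤ) : (c.Cc s)⁻¹ ∈ c.O := by
  have h := Cc_mul (c := c) s
  have : (c.Cc s)⁻¹ = c.Cc (-1 - s) := by
    rw [eq_comm, ← mul_eq_one_iff_eq_inv₀]
    · exact h
    · exact right_ne_zero_of_mul_eq_one h
  rw [this]
  exact Cc_PP.mem _

theorem Cc_ne (s : ℤ) : c.Cc s ≠ 0 := right_ne_zero_of_mul_eq_one (Cc_mul (c := c) s)

/-- `(binom (2 r) r / 4 ^ r) ^ 5` -/
def cs (r : ℕ) : ℚ := ((1 / 4 ^ r : ℚ) * (Nat.choose (2 * r) r : ℚ)) ^ 5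

theorem cs_succ (r : ℕ) : cs (r + 1) * (2 * r + 2) ^ 5 = cs r * (2 * r + 1) ^ 5 := by
  unfold cs
  have h := Nat.succ_mul_centralBinom_succ r
  rw [Nat.centralBinom_eq_two_mul_choose, Nat.centralBinom_eq_two_mul_choose] at h
  have h' : ((r : ℚ) + 1) * (Nat.choose (2 * (r + 1)) (r + 1) : ℚ) =
      2 * (2 * r + 1) * (Nat.choose (2 * r) r : ℚ) := by exact_mod_cast h
  rw [← mul_pow, ← mul_pow]
  congr 1
  rw [pow_succ]
  field_simp
  linear_combination 2 * h'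

theorem A_approx {a : K} (ha : a ∈ c.O)
    (hC : ∀ s : ℤ, c.Cc s - (1 + c.u * a * (1 + 2 * s)) ∈ c.I 2) (r : ℕ) :
    c.L2 (c.A r) (cs r : K) (-(2 * r * a * (cs r : K))) := by
  induction r with
  | zero =>
    have h1 : c.A 0 = 1 := by simp [A, Ctx.a]
    have h2 : cs 0 = 1 := by simp [cs]
    rw [h1, h2]
    refine ⟨by simpa using c.O.one_mem, by simpa using c.O.zero_mem, ?_⟩
    simpa using c.zero_mem_I 2
  | succ r ih =>
    have hs := A_succ (c := c) r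
    have g1 := L2_G (c := c) (2 * r + 1)
    have g2 := L2_G (c := c) (2 * r + 2)
    have g3 := L2_G (c := c) (4 * r + 2)
    have g4 := L2_G (c := c) (4 * r + 4)
    have c1 := L2_Cc ha hC (2 * r)
    have c2 := L2_Cc ha hC (2 * r + 1)
    have hN := ((ih.mul (L2_pow 3)).mul
      (((g1.mul g1).mul (g1.mul g1)).mul g3)).mul c1
    have hD := (((g2.mul g2).mul (g2.mul g2)).mul g4).mul c2
    have hz : c.L2 ((cs (r + 1) : K) + -(2 * ((r + 1 : ℕ) : K) * a * (cs (r + 1) : K)) * c.u)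
        (cs (r + 1) : K) (-(2 * ((r + 1 : ℕ) : K) * a * (cs (r + 1) : K))) := by
      refine ⟨c.hrat _, c.O.neg_mem (c.O.mul_mem (c.O.mul_mem (c.O.mul_mem
        (by simpa using c.nat_mem 2) (c.nat_mem _)) ha) (c.hrat _)), ?_⟩
      rw [sub_self]
      exact c.zero_mem_I 2
    have hDz := hD.mul hz
    refine ⟨hz.1, hz.2.1, ?_⟩
    have hcs : (cs (r + 1) : K) * (2 * r + 2) ^ 5 = (cs r : K) * (2 * r + 1) ^ 5 := by
      have := cs_succ r
      exact_mod_cast this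
    -- the difference
    have hdiff := c.sub_mem_I hN.2.2 hDz.2.2
    set D := c.G (2 * r + 2) * c.G (2 * r + 2) * (c.G (2 * r + 2) * c.G (2 * r + 2)) *
      c.G (4 * r + 4) * c.Cc (2 * r + 1) with hDdef
    have hDinv : D⁻¹ ∈ c.O := by
      rw [hDdef]
      simp only [mul_inv]
      have i1 := G_inv_mem (c := c) (k := 2 * r + 2) (by omega)
      have i2 := G_inv_mem (c := c) (k := 4 * r + 4) (by omega)
      exact c.O.mul_mem (c.O.mul_mem (c.O.mul_mem (c.O.mul_mem i1 i1) (c.O.mul_mem i1 i1)) i2)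
        (Cc_inv_mem _)
    have hDne : D ≠ 0 := by
      have i1 := G_ne (c := c) (k := 2 * r + 2) (by omega)
      have i2 := G_ne (c := c) (k := 4 * r + 4) (by omega)
      exact mul_ne_zero (mul_ne_zero (mul_ne_zero (mul_ne_zero i1 i1) (mul_ne_zero i1 i1)) i2)
        (Cc_ne _)
    have := c.mul_mem_I_left hDinv hdiff
    convert this using 1
    have hs' : c.A (r + 1) * D = c.A r * (1 + c.u) ^ 3 * (c.G (2 * r + 1) * c.G (2 * r + 1) *
      (c.G (2 * r + 1) * c.G (2 * r + 1)) * c.G (4 * r + 2)) * c.Cc (2 * r) := by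
      rw [hDdef]
      linear_combination hs
    rw [← hs']
    apply mul_left_cancel₀ hDne
    rw [← mul_assoc D D⁻¹, mul_inv_cancel₀ hDne, one_mul]
    push_cast
    linear_combination (-(2 * (1 + (6 * (r : K) + 7 * 2⁻¹) * c.u + a * (1 + 2 * r) * c.u))) * hcs

theorem A_mem (r : ℕ) : c.A r ∈ c.O := by
  obtain ⟨a, ha, -, hC⟩ := Cc_approx (c := c)
  exact (A_approx ha hC r).mem

theorem tt_tail (hM : 0 < c.M) (r : ℕ) {j : ℕ} (hj : j < 2 * c.M) :
    c.tt (r * (4 * c.M + 1) + 2 * c.M + (j + 1)) ∈ c.I 3 := by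
  have h := a_second (c := c) r hj.le
  have n1 : ¬ (4 * (c.M : ℤ) + 1) ∣ (4 * (c.M : ℤ) + 1) * (2 * r + 1) + (2 * j + 1) := by
    have := not_dvd_odd (c := c) (i := (j : ℤ) + 1) (by omega) (by omega) (2 * r + 1)
    rwa [show 2 * ((j : ℤ) + 1) - 1 = 2 * j + 1 by ring] at this
  have n2 : ¬ (4 * (c.M : ℤ) + 1) ∣ 2 * (4 * (c.M : ℤ) + 1) * (2 * r + 1) + (4 * j + 2) := by
    have := not_dvd_odd2 (c := c) (i := (j : ℤ) + 1) (by omega) (by omega) (2 * r + 1)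
    rwa [show 4 * ((j : ℤ) + 1) - 2 = 4 * j + 2 by ring] at this
  have z1 := e_ne' n1
  have z2 := e_ne' n2
  have z3 := P_ne (c := c) hj.le (2 * r + 1)
  have i1 := c.e_inv_mem n1
  have i2 := c.e_inv_mem n2
  have i3 := P_inv_mem (c := c) hj.le (2 * r + 1)
  have e4 : c.e ((4 * (c.M : ℤ) + 1) * (2 * r + 1)) ^ 4 ∈ c.I 3 := by
    rw [show (4 * (c.M : ℤ) + 1) * (2 * r + 1) =
      (4 * (c.M : ℤ) + 1) * ((2 * r + 1 : ℕ) : ℤ) by push_cast; ring, e_n_mul]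
    exact ⟨c.u * c.G (2 * r + 1) ^ 4, c.O.mul_mem c.u_mem (c.O.pow_mem (G_mem _) _), by ring⟩
  have hrest : (-1) ^ (r * (4 * c.M + 1) + 2 * c.M + (j + 1)) *
      (c.e (4 * ((r * (4 * c.M + 1) + 2 * c.M + (j + 1) : ℕ) : ℤ) + 1) * (c.e 1)⁻¹) *
      c.q ^ (2 * c.M + (j + 1) : ℤ) * c.A r * c.P (2 * c.M) (2 * r) *
      c.e (2 * (4 * (c.M : ℤ) + 1) * (2 * r + 1)) *
      ((c.e ((4 * (c.M : ℤ) + 1) * (2 * r + 1) + (2 * j + 1)))⁻¹ ^ 4 *
      (c.e (2 * (4 * (c.M : ℤ) + 1) * (2 * r + 1) + (4 * j + 2)))⁻¹ *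
        (c.P j (2 * r + 1))⁻¹) ∈ c.O := by
    refine c.O.mul_mem (c.O.mul_mem (c.O.mul_mem (c.O.mul_mem (c.O.mul_mem (c.O.mul_mem ?_ ?_)
      (c.zpow_mem _)) (A_mem r)) ((P_PP le_rfl).mem _)) (c.e_mem _)) ?_
    · exact c.O.pow_mem (c.O.neg_mem c.O.one_mem) _
    · exact c.O.mul_mem (c.e_mem _) (c.e_inv_mem (not_dvd_one hM))
    · exact c.O.mul_mem (c.O.mul_mem (c.O.pow_mem i1 4) i2) i3
  have := c.mul_mem_I_right e4 hrest
  convert this using 1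
  have ha : c.a (r * (4 * c.M + 1) + 2 * c.M + (j + 1)) =
      c.a (r * (4 * c.M + 1)) * c.P (2 * c.M) (2 * r) *
      (c.e ((4 * (c.M : ℤ) + 1) * (2 * r + 1)) ^ 4 *
      c.e (2 * (4 * (c.M : ℤ) + 1) * (2 * r + 1))) *
      ((c.e ((4 * (c.M : ℤ) + 1) * (2 * r + 1) + (2 * j + 1)))⁻¹ ^ 4 *
      (c.e (2 * (4 * (c.M : ℤ) + 1) * (2 * r + 1) + (4 * j + 2)))⁻¹ *
        (c.P j (2 * r + 1))⁻¹) := by
    rw [← h]
    field_simp
  unfold tt
  rw [ha]
  have hq : c.q ^ ((r * (4 * c.M + 1) + 2 * c.M + (j + 1) : ℕ) : ℤ) =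
      c.q ^ ((r * (4 * c.M + 1) : ℕ) : ℤ) * c.q ^ (2 * c.M + (j + 1) : ℤ) := by
    rw [← zpow_add₀ c.hq0]
    congr 1
    push_cast
    ring
  rw [hq]
  unfold A
  ring

/-- One block of the sum. -/
theorem block (hM : 0 < c.M) (r : ℕ) :
    ∑ j ∈ range (4 * c.M + 1), c.tt (r * (4 * c.M + 1) + j) -
      WZ80.lam c.q c.M * ((-1) ^ r * (4 * r + 1) * (cs r : K)) ∈ c.I 3 := by
  obtain ⟨a, ha, hC0, hC⟩ := Cc_approx (c := c)
  have hA := A_approx ha hC r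
  have hF := F_approx hM ha hC0 hC (2 * r)
  have hF0 := F_zero_mem hM
  have hlam := F_lam hM
  have hsplit : ∑ j ∈ range (4 * c.M + 1), c.tt (r * (4 * c.M + 1) + j) =
      (-1) ^ r * c.A r * c.F (2 * r) +
        ∑ j ∈ range (2 * c.M), c.tt (r * (4 * c.M + 1) + 2 * c.M + (j + 1)) := by
    rw [show 4 * c.M + 1 = (2 * c.M + 1) + 2 * c.M by ring, sum_range_add]
    congr 1
    · unfold F
      rw [mul_sum]
      apply sum_congr rfl
      intro j _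
      rw [← tt_first, show (2 * c.M + 1) + 2 * c.M = 4 * c.M + 1 by ring]
    · apply sum_congr rfl
      intro j _
      congr 1
      ring
  have htail : ∑ j ∈ range (2 * c.M), c.tt (r * (4 * c.M + 1) + 2 * c.M + (j + 1)) ∈ c.I 3 := by
    apply c.sum_mem_I
    intro j hj
    exact tt_tail hM r (mem_range.1 hj)
  have hm1 : ((-1 : K)) ^ r ∈ c.O := c.O.pow_mem (c.O.neg_mem c.O.one_mem) _
  have hcs : (cs r : K) ∈ c.O := c.hrat _
  have hrO : (r : K) ∈ c.O := c.nat_mem r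
  have h2 : (2 : K) ∈ c.O := by simpa using c.nat_mem 2
  have h4 : (4 : K) ∈ c.O := by simpa using c.nat_mem 4
  -- step 1: replace F (2 r)
  have s1 := c.mul_mem_I_left (c.O.mul_mem hm1 (A_mem r)) hF
  -- step 2: replace A r
  have s2 := c.mul_mem_I (j := 2) (k := 1) (c.mul_mem_I_right hA.2.2 (c.O.mul_mem
    (c.O.mul_mem hm1 (c.O.add_mem c.O.one_mem (c.O.mul_mem h4 hrO)))
    (c.O.add_mem c.O.one_mem (c.O.mul_mem (c.O.mul_mem ha c.u_mem) (c.O.mul_mem h2 hrO))))) hF0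
  -- step 3: second order term
  have s3 : c.u ^ 2 * ((-1) ^ r * (1 + 4 * (r : K)) * (cs r : K) * (-(4 * (a * a) * (r * r)))) *
      c.F 0 ∈ c.I 3 := by
    refine c.mul_mem_I (j := 2) (k := 1) ⟨_, ?_, rfl⟩ hF0
    exact c.O.mul_mem (c.O.mul_mem (c.O.mul_mem hm1 (c.O.add_mem c.O.one_mem
      (c.O.mul_mem h4 hrO))) hcs) (c.O.neg_mem (c.O.mul_mem (c.O.mul_mem h4 (c.O.mul_mem ha ha))
      (c.O.mul_mem hrO hrO)))
  -- step 4: replace F 0
  have s4 := c.mul_mem_I_left (c.O.mul_mem (c.O.mul_mem hm1 (c.O.add_mem (c.O.mul_mem h4 hrO)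
    c.O.one_mem)) hcs) hlam
  have := c.add_mem_I (c.add_mem_I (c.add_mem_I (c.add_mem_I s1 s2) s3) s4) htail
  convert this using 1
  rw [hsplit]
  push_cast
  ring

theorem total (hM : 0 < c.M) (m : ℕ) :
    ∑ k ∈ range (m * (4 * c.M + 1)), c.tt k -
      WZ80.lam c.q c.M * ∑ r ∈ range m, ((-1) ^ r * (4 * r + 1) * (cs r : K)) ∈ c.I 3 := by
  induction m with
  | zero => simpa using c.zero_mem_I 3
  | succ m ih =>
    rw [show (m + 1) * (4 * c.M + 1) = m * (4 * c.M + 1) + (4 * c.M + 1) by ring,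
      sum_range_add, sum_range_succ _ m]
    have := c.add_mem_I ih (block hM m)
    convert this using 1
    ring

/-! ### The case `n = 1` -/

variable (c)

/-- quadratic approximation modulo `u ^ 3` -/
def L3 (z x y w : K) : Prop :=
  x ∈ c.O ∧ y ∈ c.O ∧ w ∈ c.O ∧ z - (x + y * c.u + w * c.u ^ 2) ∈ c.I 3

variable {c}

theorem L3.mem {z x y w : K} (h : c.L3 z x y w) : z ∈ c.O := by
  have := c.O.add_mem (c.I_sub_O h.2.2.2) (c.O.add_mem (c.O.add_mem h.1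
    (c.O.mul_mem h.2.1 c.u_mem)) (c.O.mul_mem h.2.2.1 (c.O.pow_mem c.u_mem 2)))
  simpa using this

theorem L3.add {z x y w z' x' y' w' : K} (h : c.L3 z x y w) (h' : c.L3 z' x' y' w') :
    c.L3 (z + z') (x + x') (y + y') (w + w') := by
  refine ⟨c.O.add_mem h.1 h'.1, c.O.add_mem h.2.1 h'.2.1, c.O.add_mem h.2.2.1 h'.2.2.1, ?_⟩
  have := c.add_mem_I h.2.2.2 h'.2.2.2
  convert this using 1
  ring

theorem L3.mul {z x y w z' x' y' w' : K} (h : c.L3 z x y w) (h' : c.L3 z' x' y' w') :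
    c.L3 (z * z') (x * x') (x * y' + y * x') (x * w' + y * y' + w * x') := by
  refine ⟨c.O.mul_mem h.1 h'.1, c.O.add_mem (c.O.mul_mem h.1 h'.2.1) (c.O.mul_mem h.2.1 h'.1),
    c.O.add_mem (c.O.add_mem (c.O.mul_mem h.1 h'.2.2.1) (c.O.mul_mem h.2.1 h'.2.1))
      (c.O.mul_mem h.2.2.1 h'.1), ?_⟩
  have h1 := c.mul_mem_I_right h.2.2.2 h'.mem
  have h2 := c.mul_mem_I_left (c.O.add_mem (c.O.add_mem h.1 (c.O.mul_mem h.2.1 c.u_mem))
    (c.O.mul_mem h.2.2.1 (c.O.pow_mem c.u_mem 2))) h'.2.2.2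
  have h3 : c.u ^ 3 * (y * w' + w * y' + w * w' * c.u) ∈ c.I 3 :=
    ⟨_, c.O.add_mem (c.O.add_mem (c.O.mul_mem h.2.1 h'.2.2.1) (c.O.mul_mem h.2.2.1 h'.2.1))
      (c.O.mul_mem (c.O.mul_mem h.2.2.1 h'.2.2.1) c.u_mem), rfl⟩
  have := c.add_mem_I (c.add_mem_I h1 h2) h3
  convert this using 1
  ring

theorem L3_one_add_u : c.L3 (1 + c.u) 1 1 0 :=
  ⟨c.O.one_mem, c.O.one_mem, c.O.zero_mem, by simpa using c.zero_mem_I 3⟩

theorem L3_pow (k : ℕ) : c.L3 ((1 + c.u) ^ k) 1 k ((k : K) * (k - 1) * 2⁻¹) := by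
  induction k with
  | zero =>
    refine ⟨c.O.one_mem, by simp [c.O.zero_mem], by simp [c.O.zero_mem], ?_⟩
    simpa using c.zero_mem_I 3
  | succ k ih =>
    have := ih.mul L3_one_add_u
    rw [pow_succ]
    convert this using 1
    · ring
    · push_cast; ring
    · push_cast; field_simp; ring

theorem L3_G (k : ℕ) : c.L3 (c.G k) k ((k : K) * (k - 1) * 2⁻¹)
    ((k : K) * (k - 1) * (k - 2) * 6⁻¹) := by
  induction k with
  | zero =>
    refine ⟨by simp [c.O.zero_mem], by simp [c.O.zero_mem], by simp [c.O.zero_mem], ?_⟩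
    simpa [G] using c.zero_mem_I 3
  | succ k ih =>
    have h : c.G (k + 1) = c.G k + (1 + c.u) ^ k := by
      unfold G
      rw [sum_range_succ]
      congr 2
      unfold u
      ring
    rw [h]
    have := ih.add (L3_pow k)
    convert this using 1
    · push_cast; ring
    · push_cast; field_simp; ring
    · push_cast; field_simp; ring

theorem one_step (hM : c.M = 0) (k : ℕ) :
    c.G (4 * k + 1) * c.A k - (4 * k + 1) * (cs k : K) ∈ c.I 3 := by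
  induction k with
  | zero =>
    have h1 : c.A 0 = 1 := by simp [A, Ctx.a]
    have h2 : cs 0 = 1 := by simp [cs]
    rw [h1, h2]
    simpa [G] using c.zero_mem_I 3
  | succ k ih =>
    have hs := A_succ_aux (c := c) k
    have hP : ∀ s, c.P (2 * c.M) s = 1 := by intro s; rw [hM]; simp [P]
    rw [hP, hP, mul_one, mul_one] at hs
    have hcs : (cs (k + 1) : K) * (2 * k + 2) ^ 5 = (cs k : K) * (2 * k + 1) ^ 5 := by
      have := cs_succ k
      exact_mod_cast this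
    have g1 := L3_G (c := c) (2 * k + 1)
    have g2 := L3_G (c := c) (2 * k + 2)
    have g3 := L3_G (c := c) (4 * k + 2)
    have g4 := L3_G (c := c) (4 * k + 4)
    have g5 := L3_G (c := c) (4 * k + 1)
    have g6 := L3_G (c := c) (4 * k + 5)
    have hN := ((g6.mul (L3_one_add_u (c := c))).mul ((g1.mul g1).mul (g1.mul g1))).mul g3
    have hD := (g5.mul ((g2.mul g2).mul (g2.mul g2))).mul g4
    have hk : (k : K) ∈ c.O := c.nat_mem k
    have h4 : (4 : K) ∈ c.O := by simpa using c.nat_mem 4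
    have h5 : (5 : K) ∈ c.O := by simpa using c.nat_mem 5
    have t1 : (4 * (k : K) + 1) * (cs k : K) ∈ c.O :=
      c.O.mul_mem (c.O.add_mem (c.O.mul_mem h4 hk) c.O.one_mem) (c.hrat _)
    have t2 : (4 * (k : K) + 5) * (cs (k + 1) : K) ∈ c.O :=
      c.O.mul_mem (c.O.add_mem (c.O.mul_mem h4 hk) h5) (c.hrat _)
    have s1 := c.mul_mem_I_right ih hN.mem
    have s2 := c.mul_mem_I_right hN.2.2.2 t1
    have s3 := c.mul_mem_I_right hD.2.2.2 t2
    have s4 := c.add_mem_I s1 (c.sub_mem_I s2 s3)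
    set D := c.G (4 * k + 1) * (c.G (2 * k + 2) * c.G (2 * k + 2) *
      (c.G (2 * k + 2) * c.G (2 * k + 2))) * c.G (4 * k + 4) with hDdef
    have hDinv : D⁻¹ ∈ c.O := by
      rw [hDdef]
      simp only [mul_inv]
      have i1 := G_inv_mem (c := c) (k := 2 * k + 2) (by omega)
      have i2 := G_inv_mem (c := c) (k := 4 * k + 4) (by omega)
      have i3 := G_inv_mem (c := c) (k := 4 * k + 1) (by omega)
      exact c.O.mul_mem (c.O.mul_mem i3 (c.O.mul_mem (c.O.mul_mem i1 i1) (c.O.mul_mem i1 i1))) i2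
    have hDne : D ≠ 0 := by
      have i1 := G_ne (c := c) (k := 2 * k + 2) (by omega)
      have i2 := G_ne (c := c) (k := 4 * k + 4) (by omega)
      have i3 := G_ne (c := c) (k := 4 * k + 1) (by omega)
      exact mul_ne_zero (mul_ne_zero i3 (mul_ne_zero (mul_ne_zero i1 i1) (mul_ne_zero i1 i1))) i2
    have := c.mul_mem_I_left hDinv s4
    convert this using 1
    apply mul_left_cancel₀ hDne
    rw [← mul_assoc D D⁻¹, mul_inv_cancel₀ hDne, one_mul]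
    rw [show 4 * (k + 1) + 1 = 4 * k + 5 by ring]
    have hs' : D * (c.G (4 * k + 5) * c.A (k + 1)) = c.G (4 * k + 1) * c.A k *
        (c.G (4 * k + 5) * (1 + c.u) * (c.G (2 * k + 1) * c.G (2 * k + 1) *
          (c.G (2 * k + 1) * c.G (2 * k + 1))) * c.G (4 * k + 2)) := by
      rw [hDdef]
      linear_combination (c.G (4 * k + 5) * c.G (4 * k + 1)) * hs
    rw [mul_sub, hs']
    push_cast
    linear_combination (-(2 * (4 * (k : K) + 5) * (4 * k + 1) * (1 + (8 * (k : K) + 7 * 2⁻¹) * c.u +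
      ((4 * (k : K) + 3) ^ 2 * 8⁻¹ - (8 * k + 7 * 2⁻¹) * 2⁻¹ + (8 * k + 7 * 2⁻¹) ^ 2 * 2⁻¹) *
        c.u ^ 2))) * hcs

theorem total_one (hM : c.M = 0) (m : ℕ) :
    ∑ k ∈ range (m * (4 * c.M + 1)), c.tt k -
      WZ80.lam c.q c.M * ∑ r ∈ range m, ((-1) ^ r * (4 * r + 1) * (cs r : K)) ∈ c.I 3 := by
  have he1 : c.e 1 ≠ 0 := c.e_ne (by norm_num)
  have hlam : WZ80.lam c.q c.M = 1 := by
    rw [hM]
    unfold WZ80.lam
    change c.e (4 * ((0 : ℕ) : ℤ) + 1) / c.e 1 * _ = _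
    simp [he1]
  have hmul : m * (4 * c.M + 1) = m := by rw [hM]; ring
  rw [hlam, one_mul, hmul, ← sum_sub_distrib]
  apply c.sum_mem_I
  intro k _
  have h := c.mul_mem_I_left (c.O.pow_mem (c.O.neg_mem c.O.one_mem) k) (one_step hM k)
  convert h using 1
  have h1 : c.e (4 * (k : ℤ) + 1) / c.e 1 = c.G (4 * k + 1) := by
    have := e_n_mul (c := c) (4 * k + 1)
    have h2 := e_n_mul (c := c) 1
    have h3 : c.G 1 = 1 := by simp [G]
    rw [hM] at this h2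
    rw [h3] at h2
    push_cast at this h2
    rw [one_mul] at this
    rw [mul_one] at h2
    rw [this, h2]
    have := c.u_ne
    field_simp
  unfold tt A
  rw [h1, hM]
  simp only [mul_zero, zero_add, mul_one]
  ring

theorem total_all (m : ℕ) :
    ∑ k ∈ range (m * (4 * c.M + 1)), c.tt k -
      WZ80.lam c.q c.M * ∑ r ∈ range m, ((-1) ^ r * (4 * r + 1) * (cs r : K)) ∈ c.I 3 := by
  rcases Nat.eq_zero_or_pos c.M with h | h
  · exact total_one h m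
  · exact total h m

end Ctx

end Pool.Agent.MP_40e425_nt.Core80
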